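import Mathlib

/-!
L/Roots (size S-M): `K` is a finite field of characteristic two in which `x ↦ x ^ 3` is injective.

`exists_field` PROOF: `K = GaloisField 2 s`, `card = 2 ^ s`. If `x ^ 3 = y ^ 3` and `x ≠ y` then `y ≠ 0` and
`z = x / y` has `z ^ 3 = 1`, `z ≠ 1`, so `3 ∣ card Kˣ = 2 ^ s - 1` (`orderOf_dvd_card`), but
`2 ^ s ≡ 2 (mod 3)` for odd `s`.

`card_roots` PROOF. Let `f x = a * x ^ 2 + a ^ 2 * x` and `N b` the left side for `b`. If `f x = f x'` then
`a * (x + x') * (x + x' + a) = 0`, so `x' = x` or `x' = x + a`: both sets have at most two elements.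
Both cannot be nonempty: `f x = b`, `f y = b + a ^ 3` give with `t = (x + y) / a`: `t ^ 2 + t = 1`, so
`t ^ 3 = t * (t + 1) = t ^ 2 + t = 1 = 1 ^ 3`, so `t = 1`, and `1 + 1 = 1`, false. So `N b ≤ 2` for every
`b`; and `∑_b N b = 2 * card K` (every `x` is in one set of each kind). So `N b = 2`.
-/

set_option autoImplicit false

namespace Pool.Agent.Work.MP_4b9821_co

private theorem three_dvd_two_pow {s : ℕ} (hs : Odd s) : ¬ 3 ∣ 2 ^ s - 1 := by
  obtain ⟨k, rfl⟩ := hs
  intro h
  have h4 : 4 ^ k % 3 = 1 := by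
    rw [Nat.pow_mod]
    norm_num
  have h1 : 2 ^ (2 * k + 1) = 2 * 4 ^ k := by
    rw [pow_succ, pow_mul]
    norm_num
    ring
  have hpos : 0 < 4 ^ k := by positivity
  rw [h1] at h
  omega

theorem exists_field {s : ℕ} (hs : Odd s) : ∃ (K : Type) (_ : Field K) (_ : Fintype K), CharP K 2 ∧
    Fintype.card K = 2 ^ s ∧ Function.Injective (fun x : K => x ^ 3) := by
  classical
  have hs0 : s ≠ 0 := by
    rintro rfl
    exact absurd hs (by decide)
  let _ : Fintype (GaloisField 2 s) := Fintype.ofFinite _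
  have hc : Fintype.card (GaloisField 2 s) = 2 ^ s := by
    rw [← Nat.card_eq_fintype_card]
    exact GaloisField.card 2 s hs0
  refine ⟨GaloisField 2 s, inferInstance, inferInstance, inferInstance, hc, ?_⟩
  intro x y hxy
  change x ^ 3 = y ^ 3 at hxy
  by_contra hne
  have hy : y ≠ 0 := by
    rintro rfl
    rw [zero_pow (by norm_num)] at hxy
    exact hne (pow_eq_zero_iff (by norm_num) |>.1 hxy)
  have hx : x ≠ 0 := by
    rintro rfl
    rw [zero_pow (by norm_num)] at hxy
    exact hy (pow_eq_zero_iff (by norm_num) |>.1 hxy.symm)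
  set z : (GaloisField 2 s)ˣ := Units.mk0 (x / y) (div_ne_zero hx hy) with hz
  have hz3 : z ^ 3 = 1 := by
    apply Units.ext
    rw [Units.val_pow_eq_pow_val, hz, Units.val_mk0, div_pow, hxy, div_self (pow_ne_zero 3 hy),
      Units.val_one]
  have hz1 : z ≠ 1 := by
    intro h
    have : x / y = 1 := by
      have := congrArg Units.val h
      rwa [hz, Units.val_mk0, Units.val_one] at this
    exact hne ((div_eq_one_iff_eq hy).1 this)
  have ho : orderOf z = 3 := by
    have : Fact (Nat.Prime 3) := ⟨by norm_num⟩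
    exact orderOf_eq_prime hz3 hz1
  have hd : 3 ∣ Fintype.card (GaloisField 2 s)ˣ := by
    rw [← ho]
    exact orderOf_dvd_card
  rw [Fintype.card_units, hc] at hd
  exact three_dvd_two_pow hs hd

variable {K : Type*} [Field K] [Fintype K] [DecidableEq K] [CharP K 2]

omit [Fintype K] [DecidableEq K] in
private theorem roots_aux {a : K} (ha : a ≠ 0) {x y : K}
    (h : a * x ^ 2 + a ^ 2 * x = a * y ^ 2 + a ^ 2 * y) : y = x ∨ y = x + a := by
  have h2 : (2 : K) = 0 := CharTwo.two_eq_zero
  have h0 : a * ((y - x) * (y - (x + a))) = 0 := by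
    linear_combination -h + (a ^ 2 * x + a * x ^ 2 - a * x * y - a ^ 2 * y) * h2
  rcases mul_eq_zero.1 h0 with h1 | h1
  · exact absurd h1 ha
  · rcases mul_eq_zero.1 h1 with h3 | h3
    · exact Or.inl (sub_eq_zero.1 h3)
    · exact Or.inr (sub_eq_zero.1 h3)

private theorem roots_card_le {a : K} (ha : a ≠ 0) (b : K) :
    (Finset.univ.filter (fun x : K => a * x ^ 2 + a ^ 2 * x = b)).card ≤ 2 := by
  rcases (Finset.univ.filter (fun x : K => a * x ^ 2 + a ^ 2 * x = b)).eq_empty_or_nonempty with h | ⟨x, hx⟩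
  · rw [h]
    simp
  · rw [Finset.mem_filter] at hx
    refine (Finset.card_le_card (t := {x, x + a}) ?_).trans Finset.card_le_two
    intro y hy
    rw [Finset.mem_filter] at hy
    rw [Finset.mem_insert, Finset.mem_singleton]
    exact roots_aux ha (hx.2.trans hy.2.symm)

theorem card_roots (hK : Function.Injective (fun x : K => x ^ 3)) {a : K} (ha : a ≠ 0) (b : K) :
    (Finset.univ.filter (fun x : K => a * x ^ 2 + a ^ 2 * x = b)).card +
      (Finset.univ.filter (fun x : K => a * x ^ 2 + a ^ 2 * x = b + a ^ 3)).card = 2 := by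
  have h2 : (2 : K) = 0 := CharTwo.two_eq_zero
  have hle : ∀ b : K, (Finset.univ.filter (fun x : K => a * x ^ 2 + a ^ 2 * x = b)).card +
      (Finset.univ.filter (fun x : K => a * x ^ 2 + a ^ 2 * x = b + a ^ 3)).card ≤ 2 := by
    intro b
    rcases (Finset.univ.filter (fun x : K => a * x ^ 2 + a ^ 2 * x = b)).eq_empty_or_nonempty with h | ⟨x, hx⟩
    · rw [h, Finset.card_empty, zero_add]
      exact roots_card_le ha _
    · rcases (Finset.univ.filter (fun x : K => a * x ^ 2 + a ^ 2 * x = b + a ^ 3)).eq_empty_or_nonempty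
        with h | ⟨y, hy⟩
      · rw [h, Finset.card_empty, add_zero]
        exact roots_card_le ha _
      · exfalso
        rw [Finset.mem_filter] at hx hy
        have hx := hx.2
        have hy := hy.2
        set t : K := (x + y) / a with ht
        have hxy : x + y = a * t := by
          rw [ht]
          field_simp
        have h1 : t ^ 2 + t = 1 := by
          have h3 : a ^ 3 * (t ^ 2 + t) = a ^ 3 * 1 := by
            have e : a ^ 3 * (t ^ 2 + t) = a * (a * t) ^ 2 + a ^ 2 * (a * t) := by ring
            rw [e, ← hxy]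
            linear_combination hx + hy + (a * x * y + b) * h2
          exact mul_left_cancel₀ (pow_ne_zero 3 ha) h3
        have h3 : t ^ 3 = 1 ^ 3 := by
          linear_combination (t - 1) * h1 + (t - 1) * h2
        have h4 : t = 1 := hK h3
        rw [h4] at h1
        have : (1 : K) = 0 := by linear_combination h1
        exact one_ne_zero this
  have hsum : ∑ b : K, ((Finset.univ.filter (fun x : K => a * x ^ 2 + a ^ 2 * x = b)).card +
      (Finset.univ.filter (fun x : K => a * x ^ 2 + a ^ 2 * x = b + a ^ 3)).card) =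
      ∑ _b : K, 2 := by
    rw [Finset.sum_add_distrib]
    have e1 : ∑ b : K, (Finset.univ.filter (fun x : K => a * x ^ 2 + a ^ 2 * x = b)).card =
        Fintype.card K := by
      rw [← Finset.card_univ]
      exact (Finset.card_eq_sum_card_fiberwise (fun x _ => Finset.mem_coe.2 (Finset.mem_univ _))).symm
    have e2 : ∑ b : K, (Finset.univ.filter (fun x : K => a * x ^ 2 + a ^ 2 * x = b + a ^ 3)).card =
        Fintype.card K := by
      rw [← e1]
      exact Fintype.sum_equiv (Equiv.addRight (a ^ 3)) _ _ (fun b => rfl)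
    rw [e1, e2, Finset.sum_const, Finset.card_univ, smul_eq_mul]
    ring
  exact (Finset.sum_eq_sum_iff_of_le (fun b _ => hle b)).1 hsum b (Finset.mem_univ b)

end Pool.Agent.Work.MP_4b9821_co
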