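import Pool.Agent.Work.MP_4b9821_co.Defs
import Pool.Agent.Work.MP_4b9821_co.L.Roots

/-!
L/Cube (size M-L). The main construction. `q = card K`. For `g : K → Finset ℕ` (an injection into the
members of `G`) the member with index `(i, u, v)`, `i : ZMod 3`, is

  `{inl (i, x, (x + u) ^ 3 + v) | x} ∪ {inl (i - 1, x, u * x ^ 2 + u ^ 2 * x + v) | x} ∪ {inr (i, u, z) | z ∈ g v}`

(`i ≠ i - 1` in `ZMod 3`), it has `q + q + t` elements.

Intersections of `(i, u, v)` and `(j, u', v')`, distinct indices:
(1) `j = i`, `u = u'` (so `v ≠ v'`): no common `inl` elements; the common elements are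
    `inr (i, u, z)`, `z ∈ g v ∩ g v'`: between 1 and 2 of them.
(2) `j = i`, `u ≠ u'`, `a = u + u' ≠ 0`: no common `inr` elements. A common element `inl (i, x, _)` is given by
    an `x` with `(x + u) ^ 3 + v = (x + u') ^ 3 + v'`; with `y = x + u` this is
    `a * y ^ 2 + a ^ 2 * y = (v + v') + a ^ 3`. A common element `inl (i - 1, x, _)` is given by an `x` with
    `a * x ^ 2 + a ^ 2 * x = v + v'`. By `card_roots` the number of common elements is exactly 2. If `x` is a
    solution of one of the two equations then so is `x + a`: so with `inl (k, x, y)` also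
    `inl (k, x + a, y')` is a common element for some `y'`.
(3) `j = i + 1` (the case `j = i - 1` is symmetric, and these are all `j ≠ i` in `ZMod 3`): the common
    elements are `inl (i, x, _)` with `(x + u) ^ 3 + v = u' * x ^ 2 + u' ^ 2 * x + v'`, i.e.
    `(x + u + u') ^ 3 = ` a constant: exactly one `x` (cubing is a bijection). One common element, in
    `inl (i, ...)`.

No sunflower `P, Q, R` (distinct indices `(i, u, v)`, `(j, u', v')`, `(k, u'', v'')`):
- `i, j, k` distinct: up to order `i, i + 1, i + 2`: `P ∩ Q` consists of one element of `inl (i, ...)`,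
  `Q ∩ R` of one element of `inl (i + 1, ...)`: different.
- two equal, the third different, say `i = j ≠ k`: `P ∩ R` has exactly one element, an `inl`. If `u = u'`,
  `P ∩ Q` consists of `inr` elements; if `u ≠ u'`, `P ∩ Q` has two elements. Contradiction.
- `i = j = k`: if `u = u' = u''`, then `g v, g v', g v''` is a sunflower in `G`. If `u = u' ≠ u''`, then
  `P ∩ Q` consists of `inr` elements, `P ∩ R` of two `inl` elements. If `u, u', u''` are distinct, take
  `inl (k, x, y) ∈ P ∩ Q = P ∩ R`; then elements with middle coordinates `x`, `x + u + u'`, `x + u + u''` are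
  in `P ∩ Q`, three distinct ones, but `|P ∩ Q| = 2`.

The members are distinct for distinct indices because intersections have at most two elements, and each
member has at least `2 q ≥ 4 > 2` elements.
-/

set_option autoImplicit false

namespace Pool.Agent.Work.MP_4b9821_co

variable {K : Type*} [Field K] [Fintype K] [DecidableEq K] [CharP K 2]

private def blk (g : K → Finset ℕ) (P : ZMod 3 × K × K) :
    Finset ((ZMod 3 × K × K) ⊕ (ZMod 3 × K × ℕ)) :=
  (Finset.univ.image (fun x : K => Sum.inl (P.1, x, (x + P.2.1) ^ 3 + P.2.2))) ∪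
  (Finset.univ.image (fun x : K =>
    Sum.inl (P.1 - 1, x, P.2.1 * x ^ 2 + P.2.1 ^ 2 * x + P.2.2))) ∪
  ((g P.2.2).image (fun z => Sum.inr (P.1, P.2.1, z)))

omit [CharP K 2] in
private theorem mem_inl (g : K → Finset ℕ) (i k : ZMod 3) (u v x y : K) :
    (Sum.inl (k, x, y) : (ZMod 3 × K × K) ⊕ (ZMod 3 × K × ℕ)) ∈ blk g (i, u, v) ↔
      (k = i ∧ y = (x + u) ^ 3 + v) ∨ (k = i - 1 ∧ y = u * x ^ 2 + u ^ 2 * x + v) := by
  unfold blk
  simp only [Finset.mem_union, Finset.mem_image, Finset.mem_univ, true_and, Sum.inl.injEq,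
    Prod.mk.injEq, reduceCtorEq, and_false, exists_false, or_false]
  constructor
  · rintro (⟨a, h1, h2, h3⟩ | ⟨a, h1, h2, h3⟩)
    · left; subst h2; exact ⟨h1.symm, h3.symm⟩
    · right; subst h2; exact ⟨h1.symm, h3.symm⟩
  · rintro (⟨h1, h2⟩ | ⟨h1, h2⟩)
    · left; exact ⟨x, h1.symm, rfl, h2.symm⟩
    · right; exact ⟨x, h1.symm, rfl, h2.symm⟩

omit [CharP K 2] in
private theorem mem_inr (g : K → Finset ℕ) (i k : ZMod 3) (u v w : K) (z : ℕ) :
    (Sum.inr (k, w, z) : (ZMod 3 × K × K) ⊕ (ZMod 3 × K × ℕ)) ∈ blk g (i, u, v) ↔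
      k = i ∧ w = u ∧ z ∈ g v := by
  unfold blk
  simp only [Finset.mem_union, Finset.mem_image, Finset.mem_univ, true_and, Sum.inr.injEq,
    Prod.mk.injEq, reduceCtorEq, exists_false, false_or]
  constructor
  · rintro ⟨a, h0, h1, h2, h3⟩
    subst h3; exact ⟨h1.symm, h2.symm, h0⟩
  · rintro ⟨h1, h2, h3⟩
    exact ⟨z, h3, h1.symm, h2.symm, rfl⟩

private theorem sub_one_ne (i : ZMod 3) : i ≠ i - 1 := by
  revert i; decide

omit [CharP K 2] in
private theorem card_blk (g : K → Finset ℕ) (i : ZMod 3) (u v : K) :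
    (blk g (i, u, v)).card = 2 * Fintype.card K + (g v).card := by
  unfold blk
  rw [Finset.card_union_of_disjoint, Finset.card_union_of_disjoint,
    Finset.card_image_of_injective, Finset.card_image_of_injective,
    Finset.card_image_of_injective, Finset.card_univ]
  · ring
  · intro a b h
    simp only [Sum.inr.injEq, Prod.mk.injEq, true_and] at h
    exact h
  · intro a b h
    simp only [Sum.inl.injEq, Prod.mk.injEq, true_and] at h
    exact h.1
  · intro a b h
    simp only [Sum.inl.injEq, Prod.mk.injEq, true_and] at h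
    exact h.1
  · rw [Finset.disjoint_left]
    intro a ha hb
    simp only [Finset.mem_image, Finset.mem_univ, true_and] at ha hb
    obtain ⟨x, rfl⟩ := ha
    obtain ⟨y, hy⟩ := hb
    simp only [Sum.inl.injEq, Prod.mk.injEq] at hy
    exact sub_one_ne i hy.1.symm
  · rw [Finset.disjoint_left]
    intro a ha hb
    simp only [Finset.mem_union, Finset.mem_image, Finset.mem_univ, true_and] at ha hb
    obtain ⟨y, _, hy⟩ := hb
    rcases ha with ⟨x, rfl⟩ | ⟨x, rfl⟩
    · exact absurd hy (by simp)
    · exact absurd hy (by simp)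

omit [CharP K 2] in
/-- same `i`, same `u` -/
private theorem inter_same (g : K → Finset ℕ) (i : ZMod 3) (u : K) {v v' : K} (hv : v ≠ v') :
    blk g (i, u, v) ∩ blk g (i, u, v') = (g v ∩ g v').image (fun z => Sum.inr (i, u, z)) := by
  ext e
  rw [Finset.mem_inter]
  rcases e with ⟨k, x, y⟩ | ⟨k, w, z⟩
  · rw [mem_inl, mem_inl]
    constructor
    · rintro ⟨h1, h2⟩
      exfalso
      rcases h1 with ⟨h1, h1'⟩ | ⟨h1, h1'⟩ <;> rcases h2 with ⟨h2, h2'⟩ | ⟨h2, h2'⟩
      · exact hv (add_left_cancel (h1'.symm.trans h2'))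
      · exact sub_one_ne i (h1.symm.trans h2)
      · exact sub_one_ne i (h2.symm.trans h1)
      · exact hv (add_left_cancel (h1'.symm.trans h2'))
    · intro h
      simp at h
  · rw [mem_inr, mem_inr]
    simp only [Finset.mem_image, Finset.mem_inter, Sum.inr.injEq, Prod.mk.injEq]
    constructor
    · rintro ⟨⟨h1, h2, h3⟩, _, _, h6⟩
      exact ⟨z, ⟨h3, h6⟩, h1.symm, h2.symm, rfl⟩
    · rintro ⟨a, ⟨h1, h2⟩, h3, h4, h5⟩
      subst h5
      exact ⟨⟨h3.symm, h4.symm, h1⟩, h3.symm, h4.symm, h2⟩

omit [Fintype K] [DecidableEq K] in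
private theorem two0 : (2 : K) = 0 := CharTwo.two_eq_zero

/-- same `i`, different `u` -/
private theorem inter_diff (hK : Function.Injective (fun x : K => x ^ 3)) (g : K → Finset ℕ)
    (i : ZMod 3) {u u' : K} (hu : u ≠ u') (v v' : K) :
    (blk g (i, u, v) ∩ blk g (i, u', v')).card = 2 := by
  have h2 : (2 : K) = 0 := two0
  have ha : u + u' ≠ 0 := by
    intro h
    apply hu
    linear_combination h - u' * h2
  have key : blk g (i, u, v) ∩ blk g (i, u', v') =
      ((Finset.univ.filter (fun x : K => (u + u') * x ^ 2 + (u + u') ^ 2 * x = v + v')).image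
        (fun x => (Sum.inl (i - 1, x, u * x ^ 2 + u ^ 2 * x + v) :
          (ZMod 3 × K × K) ⊕ (ZMod 3 × K × ℕ)))) ∪
      ((Finset.univ.filter (fun x : K => (u + u') * x ^ 2 + (u + u') ^ 2 * x =
        v + v' + (u + u') ^ 3)).image
        (fun y => (Sum.inl (i, y + u, y ^ 3 + v) : (ZMod 3 × K × K) ⊕ (ZMod 3 × K × ℕ)))) := by
    ext e
    rw [Finset.mem_inter, Finset.mem_union]
    rcases e with ⟨k, x, y⟩ | ⟨k, w, z⟩
    · rw [mem_inl, mem_inl]
      simp only [Finset.mem_image, Finset.mem_filter, Finset.mem_univ, true_and, Sum.inl.injEq,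
        Prod.mk.injEq]
      constructor
      · rintro ⟨h1, h3⟩
        rcases h1 with ⟨h1, h1'⟩ | ⟨h1, h1'⟩ <;> rcases h3 with ⟨h3, h3'⟩ | ⟨h3, h3'⟩
        · right
          refine ⟨x + u, ?_, h1.symm, ?_, h1'.symm⟩
          · have h := h1'.symm.trans h3'
            linear_combination (-1 : K) * h + (2 * u * u' * x - u * u' ^ 2 + 2 * u * x ^ 2 +
              3 * u ^ 2 * x + u ^ 3 - u' * x ^ 2 - u' ^ 2 * x - u' ^ 3 - v') * h2
          · linear_combination u * h2
        · exact absurd (h1.symm.trans h3) (sub_one_ne i)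
        · exact absurd (h3.symm.trans h1) (sub_one_ne i)
        · left
          refine ⟨x, ?_, h1.symm, rfl, h1'.symm⟩
          have h := h1'.symm.trans h3'
          linear_combination h + (u * u' * x + u' * x ^ 2 + u' ^ 2 * x - v) * h2
      · rintro (⟨a, h1, h3, h4, h5⟩ | ⟨a, h1, h3, h4, h5⟩)
        · subst h4
          refine ⟨Or.inr ⟨h3.symm, h5.symm⟩, Or.inr ⟨h3.symm, ?_⟩⟩
          rw [← h5]
          linear_combination h1 + (-(u * a * u') - a * u' ^ 2 - a ^ 2 * u' + v) * h2
        · subst h4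
          refine ⟨Or.inl ⟨h3.symm, ?_⟩, Or.inl ⟨h3.symm, ?_⟩⟩
          · rw [← h5]
            linear_combination (-(6 * a * u ^ 2) - 3 * a ^ 2 * u - 4 * u ^ 3) * h2
          · rw [← h5]
            linear_combination h1 + (-(4 * a * u * u') - 2 * a * u ^ 2 - 2 * a * u' ^ 2 -
              2 * a ^ 2 * u - 2 * a ^ 2 * u' + v) * h2
    · rw [mem_inr, mem_inr]
      constructor
      · rintro ⟨⟨_, h3, _⟩, _, h5, _⟩
        exact absurd (h3.symm.trans h5) hu
      · intro h
        simp at h
  rw [key, Finset.card_union_of_disjoint, Finset.card_image_of_injective,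
    Finset.card_image_of_injective]
  · exact card_roots hK ha (v + v')
  · intro a b h
    simp only [Sum.inl.injEq, Prod.mk.injEq, true_and] at h
    exact add_right_cancel h.1
  · intro a b h
    simp only [Sum.inl.injEq, Prod.mk.injEq, true_and] at h
    exact h.1
  · rw [Finset.disjoint_left]
    intro a ha hb
    simp only [Finset.mem_image, Finset.mem_filter, Finset.mem_univ, true_and] at ha hb
    obtain ⟨x, _, rfl⟩ := ha
    obtain ⟨y, _, hy⟩ := hb
    simp only [Sum.inl.injEq, Prod.mk.injEq] at hy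
    exact sub_one_ne i hy.1


/-- `i` and `i + 1` -/
private theorem inter_next (hK : Function.Injective (fun x : K => x ^ 3)) (g : K → Finset ℕ)
    (i : ZMod 3) (u u' v v' : K) :
    ∃ x y : K, blk g (i, u, v) ∩ blk g (i + 1, u', v') = {Sum.inl (i, x, y)} := by
  have h2 : (2 : K) = 0 := two0
  have hs : Function.Surjective (fun x : K => x ^ 3) := Finite.surjective_of_injective hK
  obtain ⟨w, hw⟩ := hs (v + v' + u ^ 3 + (u + u') ^ 3)
  have hw' : w ^ 3 = v + v' + u ^ 3 + (u + u') ^ 3 := hw
  refine ⟨w + (u + u'), (w + (u + u') + u) ^ 3 + v, ?_⟩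
  have hi1 : i ≠ i + 1 := by revert i; decide
  have hi2 : i - 1 ≠ i + 1 := by revert i; decide
  ext e
  rw [Finset.mem_inter, Finset.mem_singleton]
  rcases e with ⟨k, x, y⟩ | ⟨k, z, n⟩
  · rw [mem_inl, mem_inl]
    simp only [Sum.inl.injEq, Prod.mk.injEq]
    rw [add_sub_cancel_right]
    constructor
    · rintro ⟨h1, h3⟩
      rcases h1 with ⟨h1, h1'⟩ | ⟨h1, h1'⟩ <;> rcases h3 with ⟨h3, h3'⟩ | ⟨h3, h3'⟩
      · exact absurd (h1.symm.trans h3) hi1
      · have h := h1'.symm.trans h3'
        have hx : x + (u + u') = w := by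
          apply hK
          show (x + (u + u')) ^ 3 = w ^ 3
          rw [hw']
          linear_combination h + (3 * x * u * u' + 2 * x * u' ^ 2 + 2 * x ^ 2 * u' - u ^ 3 - v) * h2
        have hx' : x = w + (u + u') := by
          linear_combination hx - (u + u') * h2
        refine ⟨h1, hx', ?_⟩
        rw [h1', hx']
      · exact absurd (h1.symm.trans h3) hi2
      · exact absurd (h3.symm.trans h1) (sub_one_ne i)
    · rintro ⟨h1, h3, h4⟩
      refine ⟨Or.inl ⟨h1, by rw [h4, h3]⟩, Or.inr ⟨h1, ?_⟩⟩
      rw [h4, h3]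
      linear_combination hw' + (5 * w * u * u' + 6 * w * u ^ 2 + 3 * w ^ 2 * u + w ^ 2 * u' +
        3 * u * u' ^ 2 + 7 * u ^ 2 * u' + 5 * u ^ 3 + v) * h2
  · rw [mem_inr, mem_inr]
    constructor
    · rintro ⟨⟨h3, _⟩, h5, _⟩
      exact absurd (h3.symm.trans h5) hi1
    · intro h
      simp at h

/-- the first coordinate of the common element -/
private def kap (i j : ZMod 3) : ZMod 3 := if j = i + 1 then i else j

private theorem inter_ne (hK : Function.Injective (fun x : K => x ^ 3)) (g : K → Finset ℕ)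
    {i j : ZMod 3} (hij : i ≠ j) (u u' v v' : K) :
    ∃ x y : K, blk g (i, u, v) ∩ blk g (j, u', v') = {Sum.inl (kap i j, x, y)} := by
  unfold kap
  split_ifs with h
  · subst h
    exact inter_next hK g i u u' v v'
  · have hi : i = j + 1 := by
      revert i j; decide
    subst hi
    obtain ⟨x, y, hxy⟩ := inter_next hK g j u' u v' v
    exact ⟨x, y, by rw [Finset.inter_comm]; exact hxy⟩

private theorem kap_ne : ∀ i j k : ZMod 3, i ≠ j → i ≠ k → j ≠ k →
    ¬ (kap i j = kap i k ∧ kap i k = kap j k) := by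
  unfold kap; decide

private theorem shift (g : K → Finset ℕ) (i k : ZMod 3) {u u' v v' x y : K}
    (h : (Sum.inl (k, x, y) : (ZMod 3 × K × K) ⊕ (ZMod 3 × K × ℕ)) ∈
      blk g (i, u, v) ∩ blk g (i, u', v')) :
    ∃ y' : K, (Sum.inl (k, x + (u + u'), y') : (ZMod 3 × K × K) ⊕ (ZMod 3 × K × ℕ)) ∈
      blk g (i, u, v) ∩ blk g (i, u', v') := by
  have h2 : (2 : K) = 0 := two0
  rw [Finset.mem_inter, mem_inl, mem_inl] at h
  obtain ⟨h1, h3⟩ := h
  rcases h1 with ⟨h1, h1'⟩ | ⟨h1, h1'⟩ <;> rcases h3 with ⟨h3, h3'⟩ | ⟨h3, h3'⟩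
  · refine ⟨(x + (u + u') + u) ^ 3 + v, ?_⟩
    rw [Finset.mem_inter, mem_inl, mem_inl]
    refine ⟨Or.inl ⟨h1, rfl⟩, Or.inl ⟨h1, ?_⟩⟩
    have h := h1'.symm.trans h3'
    have e1 : x + (u + u') + u = x + u' := by linear_combination u * h2
    have e2 : x + (u + u') + u' = x + u := by linear_combination u' * h2
    rw [e1, e2]
    linear_combination h + (3 * x * u' ^ 2 - 3 * x * u ^ 2 + 3 * x ^ 2 * u' - 3 * x ^ 2 * u +
      u' ^ 3 - u ^ 3) * h2
  · exact absurd (h1.symm.trans h3) (sub_one_ne i)
  · exact absurd (h3.symm.trans h1) (sub_one_ne i)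
  · refine ⟨u * (x + (u + u')) ^ 2 + u ^ 2 * (x + (u + u')) + v, ?_⟩
    rw [Finset.mem_inter, mem_inl, mem_inl]
    refine ⟨Or.inr ⟨h1, rfl⟩, Or.inr ⟨h1, ?_⟩⟩
    have h := h1'.symm.trans h3'
    linear_combination h + (-(u * u' ^ 2) + u ^ 2 * x + u ^ 2 * u' + u ^ 3 - x * u' ^ 2 -
      u' ^ 3) * h2


private theorem single_ne (hK : Function.Injective (fun x : K => x ^ 3)) (g : K → Finset ℕ)
    (i : ZMod 3) {u u' v v' : K} (h : (i, u, v) ≠ (i, u', v')) (m : ZMod 3) (x y : K) :
    blk g (i, u, v) ∩ blk g (i, u', v') ≠ {Sum.inl (m, x, y)} := by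
  intro he
  by_cases hu : u = u'
  · subst hu
    have hv : v ≠ v' := by rintro rfl; exact h rfl
    rw [inter_same g i u hv] at he
    have : (Sum.inl (m, x, y) : (ZMod 3 × K × K) ⊕ (ZMod 3 × K × ℕ)) ∈
        (g v ∩ g v').image (fun z => (Sum.inr (i, u, z) :
          (ZMod 3 × K × K) ⊕ (ZMod 3 × K × ℕ))) := by
      rw [he]; exact Finset.mem_singleton_self _
    simp at this
  · have h1 := inter_diff hK g i hu v v'
    rw [he, Finset.card_singleton] at h1
    omega

private theorem kinds (hK : Function.Injective (fun x : K => x ^ 3)) (g : K → Finset ℕ)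
    (i : ZMod 3) {u v v' : K} (hv : v ≠ v') {w w' : K} (hw : w ≠ w') (z z' : K) :
    blk g (i, u, v) ∩ blk g (i, u, v') ≠ blk g (i, w, z) ∩ blk g (i, w', z') := by
  intro he
  have h1 := inter_diff hK g i hw z z'
  have h2 : (blk g (i, w, z) ∩ blk g (i, w', z')).Nonempty := by
    rw [← Finset.card_pos, h1]; norm_num
  obtain ⟨e, hm⟩ := h2
  have hm' := hm
  rw [← he, inter_same g i u hv] at hm'
  obtain ⟨n, _, rfl⟩ := Finset.mem_image.1 hm'
  rw [Finset.mem_inter, mem_inr, mem_inr] at hm
  exact hw (hm.1.2.1.symm.trans hm.2.2.1)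

private theorem nosun (hK : Function.Injective (fun x : K => x ^ 3)) (g : K → Finset ℕ)
    {t : ℕ} {G : Finset (Finset ℕ)} (hG : Adm t 2 G) (hgm : ∀ v, g v ∈ G)
    (hgi : Function.Injective g) {P Q R : ZMod 3 × K × K} (h1 : P ≠ Q) (h2 : P ≠ R) (h3 : Q ≠ R)
    (h4 : blk g P ∩ blk g Q = blk g P ∩ blk g R)
    (h5 : blk g P ∩ blk g R = blk g Q ∩ blk g R) : False := by
  have ht : (2 : K) = 0 := two0
  obtain ⟨i, u, v⟩ := P
  obtain ⟨j, u', v'⟩ := Q
  obtain ⟨k, u'', v''⟩ := R
  by_cases hij : i = j
  · by_cases hik : i = k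
    · subst hij
      subst hik
      by_cases hu : u = u'
      · subst hu
        have hv : v ≠ v' := by rintro rfl; exact h1 rfl
        by_cases hu2 : u = u''
        · subst hu2
          have hv2 : v ≠ v'' := by rintro rfl; exact h2 rfl
          have hv3 : v' ≠ v'' := by rintro rfl; exact h3 rfl
          rw [inter_same g i u hv, inter_same g i u hv2] at h4
          rw [inter_same g i u hv2, inter_same g i u hv3] at h5
          have hinj : Function.Injective (fun z : ℕ => (Sum.inr (i, u, z) :
              (ZMod 3 × K × K) ⊕ (ZMod 3 × K × ℕ))) := by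
            intro a b h
            simpa using h
          exact hG.2.2 _ (hgm v) _ (hgm v') _ (hgm v'') ⟨hgi.ne hv, hgi.ne hv2, hgi.ne hv3,
            Finset.image_injective hinj h4, Finset.image_injective hinj h5⟩
        · exact kinds hK g i hv hu2 v v'' h4
      · by_cases hu2 : u = u''
        · subst hu2
          have hv2 : v ≠ v'' := by rintro rfl; exact h2 rfl
          exact kinds hK g i hv2 hu v v' h4.symm
        · by_cases hu3 : u' = u''
          · subst hu3
            have hv3 : v' ≠ v'' := by rintro rfl; exact h3 rfl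
            exact kinds hK g i hv3 hu2 v v'' h5.symm
          · have hc := inter_diff hK g i hu v v'
            have hne : (blk g (i, u, v) ∩ blk g (i, u', v')).Nonempty := by
              rw [← Finset.card_pos, hc]; norm_num
            obtain ⟨e, he⟩ := hne
            rcases e with ⟨k, x, y⟩ | ⟨k, w, z⟩
            · obtain ⟨y1, hy1⟩ := shift g i k he
              have he' := he
              rw [h4] at he'
              obtain ⟨y2, hy2⟩ := shift g i k he'
              rw [← h4] at hy2
              have hsub : ({Sum.inl (k, x, y), Sum.inl (k, x + (u + u'), y1),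
                  Sum.inl (k, x + (u + u''), y2)} :
                  Finset ((ZMod 3 × K × K) ⊕ (ZMod 3 × K × ℕ))) ⊆
                  blk g (i, u, v) ∩ blk g (i, u', v') := by
                intro e hm
                simp only [Finset.mem_insert, Finset.mem_singleton] at hm
                rcases hm with rfl | rfl | rfl
                · exact he
                · exact hy1
                · exact hy2
              have hle := Finset.card_le_card hsub
              rw [hc, Finset.card_eq_three.mpr ⟨Sum.inl (k, x, y), Sum.inl (k, x + (u + u'), y1),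
                Sum.inl (k, x + (u + u''), y2), ?_, ?_, ?_, rfl⟩] at hle
              · omega
              · intro h
                simp only [Sum.inl.injEq, Prod.mk.injEq, true_and] at h
                apply hu
                linear_combination (-1 : K) * h.1 - u' * ht
              · intro h
                simp only [Sum.inl.injEq, Prod.mk.injEq, true_and] at h
                apply hu2
                linear_combination (-1 : K) * h.1 - u'' * ht
              · intro h
                simp only [Sum.inl.injEq, Prod.mk.injEq, true_and] at h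
                apply hu3
                linear_combination h.1
            · rw [Finset.mem_inter, mem_inr, mem_inr] at he
              exact hu (he.1.2.1.symm.trans he.2.2.1)
    · subst hij
      obtain ⟨x, y, hxy⟩ := inter_ne hK g hik u u'' v v''
      exact single_ne hK g i h1 _ x y (h4.trans hxy)
  · obtain ⟨x, y, hxy⟩ := inter_ne hK g hij u u' v v'
    by_cases hik : i = k
    · subst hik
      exact single_ne hK g i h2 _ x y (h4.symm.trans hxy)
    · obtain ⟨x2, y2, hxy2⟩ := inter_ne hK g hik u u'' v v''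
      by_cases hjk : j = k
      · subst hjk
        exact single_ne hK g j h3 _ x2 y2 (h5.symm.trans hxy2)
      · obtain ⟨x3, y3, hxy3⟩ := inter_ne hK g hjk u' u'' v' v''
        rw [hxy, hxy2] at h4
        rw [hxy2, hxy3] at h5
        rw [Finset.singleton_inj] at h4 h5
        simp only [Sum.inl.injEq, Prod.mk.injEq] at h4 h5
        exact kap_ne i j k hij hik hjk ⟨h4.1, h5.1⟩

theorem cube (hK : Function.Injective (fun x : K => x ^ 3)) {t : ℕ} {G : Finset (Finset ℕ)}
    (hG : Adm t 2 G) (hI : Inter G) (hc : Fintype.card K ≤ G.card) :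
    ∃ F : Finset (Finset ((ZMod 3 × K × K) ⊕ (ZMod 3 × K × ℕ))),
      Adm (2 * Fintype.card K + t) 2 F ∧ Inter F ∧ F.card = 3 * Fintype.card K ^ 2 := by
  obtain ⟨g0⟩ : Nonempty (K ↪ G) := by
    apply Function.Embedding.nonempty_of_card_le
    simpa using hc
  let g : K → Finset ℕ := fun v => (g0 v : Finset ℕ)
  have hgm : ∀ v, g v ∈ G := fun v => (g0 v).2
  have hgi : Function.Injective g := Subtype.val_injective.comp g0.injective
  have pair : ∀ P Q : ZMod 3 × K × K, P ≠ Q →
      1 ≤ (blk g P ∩ blk g Q).card ∧ (blk g P ∩ blk g Q).card ≤ 2 := by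
    rintro ⟨i, u, v⟩ ⟨j, u', v'⟩ hPQ
    by_cases hij : i = j
    · subst hij
      by_cases hu : u = u'
      · subst hu
        have hv : v ≠ v' := by rintro rfl; exact hPQ rfl
        rw [inter_same g i u hv, Finset.card_image_of_injective]
        · have h1 := hG.2.1 _ (hgm v) _ (hgm v') (hgi.ne hv)
          have h2 := hI _ (hgm v) _ (hgm v') (hgi.ne hv)
          exact ⟨Finset.card_pos.mpr h2, h1⟩
        · intro a b h
          simpa using h
      · rw [inter_diff hK g i hu v v']
        exact ⟨by norm_num, le_refl _⟩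
    · obtain ⟨x, y, h⟩ := inter_ne hK g hij u u' v v'
      rw [h]
      simp
  have hcard : ∀ P, (blk g P).card = 2 * Fintype.card K + t := by
    rintro ⟨i, u, v⟩
    rw [card_blk, hG.1 _ (hgm v)]
  have hinj : Function.Injective (blk g) := by
    intro P Q h
    by_contra hne
    have h1 := (pair P Q hne).2
    rw [h, Finset.inter_self, hcard] at h1
    have := Fintype.one_lt_card (α := K)
    omega
  refine ⟨Finset.univ.image (blk g), ⟨?_, ?_, ?_⟩, ?_, ?_⟩
  · intro A hA
    obtain ⟨P, _, rfl⟩ := Finset.mem_image.1 hA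
    exact hcard P
  · intro A hA B hB hAB
    obtain ⟨P, _, rfl⟩ := Finset.mem_image.1 hA
    obtain ⟨Q, _, rfl⟩ := Finset.mem_image.1 hB
    exact (pair P Q (fun h => hAB (by rw [h]))).2
  · intro A hA B hB C hC
    obtain ⟨P, _, rfl⟩ := Finset.mem_image.1 hA
    obtain ⟨Q, _, rfl⟩ := Finset.mem_image.1 hB
    obtain ⟨R, _, rfl⟩ := Finset.mem_image.1 hC
    rintro ⟨h1, h2, h3, h4, h5⟩
    exact nosun hK g hG hgm hgi (fun h => h1 (by rw [h])) (fun h => h2 (by rw [h]))
      (fun h => h3 (by rw [h])) h4 h5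
  · intro A hA B hB hAB
    obtain ⟨P, _, rfl⟩ := Finset.mem_image.1 hA
    obtain ⟨Q, _, rfl⟩ := Finset.mem_image.1 hB
    exact Finset.card_pos.1 (pair P Q (fun h => hAB (by rw [h]))).1
  · rw [Finset.card_image_of_injective _ hinj, Finset.card_univ, Fintype.card_prod,
      Fintype.card_prod, ZMod.card]
    ring

end Pool.Agent.Work.MP_4b9821_co
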