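import Pool.Agent.Work.MP_4b9821_co.Defs

/-!
L/Plane (size M-L). `K = ZMod p`, `p` an odd prime (or any finite field `K` of odd order `q`).
Let `V = K × K`, and for `v ∈ V`, `v ≠ 0`, write `[v] = {v, -v}` (`Sym2` or `Finset`), two different vectors
(`v ≠ -v` because the characteristic is not two). For `a ∈ V`, `a ≠ 0`, let
`L a = {[v] | a.1 * v.1 + a.2 * v.2 = 1}`. The map `v ↦ [v]` is injective on this line (`-v` has the value
`-1 ≠ 1`), so `|L a| = q`. `L (-a) = L a`.
- `a, b` linearly independent: `[v] ∈ L a ∩ L b` iff `(a · v, b · v) ∈ {(1, 1), (1, -1), (-1, 1), (-1, -1)}`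
  up to sign: exactly the two classes `[v]` with `(a · v, b · v) = (1, 1)` and `(1, -1)`.
- `b = k a` with `k ≠ 0, 1, -1`: `L a ∩ L b = ∅`.
- three classes `[a], [b], [c]`, pairwise linearly independent, do not share two elements `[v] ≠ [w]`:
  by duality, if `v, w` are linearly independent exactly two classes `[a]` have
  `a · v, a · w ∈ {1, -1}`; if `w = k v` then `k = 1` or `-1`, `[w] = [v]`.
The classes `[a]` are the `(q ^ 2 - 1) / 2` indices; those with `a` on a fixed line through `0` form a
bundle of `(q - 1) / 2` indices (with pairwise disjoint `L a`); give the bundle of the line `D` an injection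
`g_D` into the members of `G` and put `A [a] = L a ∪ {(D, z) | z ∈ g_D [a]}` where `D` is the line of `a`.
Then two members of one bundle meet in the intersection of two members of `G` (one or two elements), two
members of different bundles in exactly two elements of the first kind.
No sunflower: three in one bundle: it would be one of `G`. Two in one bundle, the third in another: the
intersections are of different kinds. Three in different bundles: they share two elements of the first
kind, impossible (above).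
-/

set_option autoImplicit false

namespace Pool.Agent.Work.MP_4b9821_co

section PlaneAux

variable {p : ℕ} [Fact p.Prime]

private def dot (a v : ZMod p × ZMod p) : ZMod p := a.1 * v.1 + a.2 * v.2

private def det (a v : ZMod p × ZMod p) : ZMod p := a.1 * v.2 - a.2 * v.1

private def cls (v : ZMod p × ZMod p) : Sym2 (ZMod p × ZMod p) := s(v, -v)

private def lin (a : ZMod p × ZMod p) : Option (ZMod p) :=
  if a.1 = 0 then none else some (a.2 / a.1)

private def cf (a : ZMod p × ZMod p) : ZMod p := if a.1 = 0 then a.2 else a.1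

private def idx (a : ZMod p × ZMod p) : ℕ := (cf a).valMinAbs.natAbs - 1

private theorem cls_eq {v w : ZMod p × ZMod p} : cls v = cls w ↔ v = w ∨ v = -w := by
  unfold cls
  rw [Sym2.eq_iff]
  constructor
  · rintro (⟨h, _⟩ | ⟨h, _⟩)
    · exact Or.inl h
    · exact Or.inr h
  · rintro (rfl | rfl)
    · exact Or.inl ⟨rfl, rfl⟩
    · exact Or.inr ⟨rfl, neg_neg _⟩

private def blk (h : ℕ → Finset ℕ) (a : ZMod p × ZMod p) :
    Finset (Sym2 (ZMod p × ZMod p) ⊕ (Option (ZMod p) × ℕ)) :=
  ((Finset.univ.filter (fun v => dot a v = 1)).image (fun v => Sum.inl (cls v))) ∪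
  ((h (idx a)).image (fun z => Sum.inr (lin a, z)))

private theorem dot_neg (a v : ZMod p × ZMod p) : dot a (-v) = - dot a v := by
  unfold dot
  simp only [Prod.fst_neg, Prod.snd_neg]
  ring

private theorem mem_inl (h : ℕ → Finset ℕ) (a v : ZMod p × ZMod p) :
    (Sum.inl (cls v) : Sym2 (ZMod p × ZMod p) ⊕ (Option (ZMod p) × ℕ)) ∈ blk h a ↔
      dot a v ^ 2 = 1 := by
  unfold blk
  simp only [Finset.mem_union, Finset.mem_image, Finset.mem_filter, Finset.mem_univ, true_and,
    Sum.inl.injEq, reduceCtorEq, and_false, exists_false, or_false]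
  constructor
  · rintro ⟨w, hw, hc⟩
    rcases cls_eq.1 hc with rfl | rfl
    · rw [hw]; ring
    · rw [dot_neg] at hw
      have : dot a v = -1 := by linear_combination (-1 : ZMod p) * hw
      rw [this]; ring
  · intro hs
    rcases sq_eq_one_iff.1 hs with h1 | h1
    · exact ⟨v, h1, rfl⟩
    · exact ⟨-v, by rw [dot_neg, h1]; ring, cls_eq.2 (Or.inr rfl)⟩

private theorem mem_inr (h : ℕ → Finset ℕ) (a : ZMod p × ZMod p) (D : Option (ZMod p)) (z : ℕ) :
    (Sum.inr (D, z) : Sym2 (ZMod p × ZMod p) ⊕ (Option (ZMod p) × ℕ)) ∈ blk h a ↔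
      D = lin a ∧ z ∈ h (idx a) := by
  unfold blk
  simp only [Finset.mem_union, Finset.mem_image, Finset.mem_filter, Finset.mem_univ, true_and,
    Sum.inr.injEq, Prod.mk.injEq, reduceCtorEq, and_false, exists_false, false_or]
  constructor
  · rintro ⟨w, hw, hc, hd⟩
    subst hd
    exact ⟨hc.symm, hw⟩
  · rintro ⟨h1, h2⟩
    exact ⟨z, h2, h1.symm, rfl⟩

private theorem inl_form {h : ℕ → Finset ℕ} {a : ZMod p × ZMod p} {e : Sym2 (ZMod p × ZMod p)}
    (he : (Sum.inl e : Sym2 (ZMod p × ZMod p) ⊕ (Option (ZMod p) × ℕ)) ∈ blk h a) :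
    ∃ v, e = cls v ∧ dot a v = 1 := by
  unfold blk at he
  simp only [Finset.mem_union, Finset.mem_image, Finset.mem_filter, Finset.mem_univ, true_and,
    Sum.inl.injEq, reduceCtorEq, and_false, exists_false, or_false] at he
  obtain ⟨w, hw, hc⟩ := he
  exact ⟨w, hc.symm, hw⟩

private theorem card_line {a : ZMod p × ZMod p} (ha : a ≠ 0) :
    (Finset.univ.filter (fun v => dot a v = 1)).card = p := by
  by_cases h1 : a.1 = 0
  · have h2 : a.2 ≠ 0 := fun h => ha (Prod.ext h1 h)
    have : Finset.univ.filter (fun v => dot a v = 1) =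
        Finset.univ.image (fun t : ZMod p => ((t, 1 / a.2) : ZMod p × ZMod p)) := by
      ext ⟨x, y⟩
      rw [Finset.mem_filter, Finset.mem_image]
      simp only [Finset.mem_univ, true_and, dot, Prod.mk.injEq, h1]
      constructor
      · intro h
        refine ⟨x, rfl, ?_⟩
        rw [div_eq_iff h2]
        linear_combination (-1 : ZMod p) * h
      · rintro ⟨t, _, h⟩
        rw [div_eq_iff h2] at h
        linear_combination (-1 : ZMod p) * h
    rw [this, Finset.card_image_of_injective, Finset.card_univ, ZMod.card]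
    intro x y h
    simp only [Prod.mk.injEq, and_true] at h
    exact h
  · have : Finset.univ.filter (fun v => dot a v = 1) =
        Finset.univ.image (fun t : ZMod p => (((1 - a.2 * t) / a.1, t) : ZMod p × ZMod p)) := by
      ext ⟨x, y⟩
      rw [Finset.mem_filter, Finset.mem_image]
      simp only [Finset.mem_univ, true_and, dot, Prod.mk.injEq]
      constructor
      · intro h
        refine ⟨y, ?_, rfl⟩
        rw [div_eq_iff h1]
        linear_combination (-1 : ZMod p) * h
      · rintro ⟨t, h, ht⟩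
        subst ht
        rw [div_eq_iff h1] at h
        linear_combination (-1 : ZMod p) * h
    rw [this, Finset.card_image_of_injective, Finset.card_univ, ZMod.card]
    intro x y h
    simp only [Prod.mk.injEq] at h
    exact h.2

private theorem one_ne_neg (hp : p ≠ 2) : (1 : ZMod p) ≠ -1 := by
  intro h
  have h2 : ((2 : ℕ) : ZMod p) = 0 := by
    push_cast
    linear_combination h
  rw [ZMod.natCast_eq_zero_iff] at h2
  exact hp ((Nat.prime_dvd_prime_iff_eq (Fact.out) Nat.prime_two).1 h2)

private theorem two_ne (hp : p ≠ 2) : (2 : ZMod p) ≠ 0 := by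
  intro h
  apply one_ne_neg hp
  linear_combination h

private theorem card_blk (hp : p ≠ 2) (h : ℕ → Finset ℕ) {a : ZMod p × ZMod p} (ha : a ≠ 0) :
    (blk h a).card = p + (h (idx a)).card := by
  unfold blk
  rw [Finset.card_union_of_disjoint, Finset.card_image_of_injOn,
    Finset.card_image_of_injective, card_line ha]
  · intro x y hxy
    simpa using hxy
  · intro x hx y hy hxy
    simp only [Finset.coe_filter, Finset.mem_univ, true_and, Set.mem_ofPred_eq] at hx hy
    simp only [Sum.inl.injEq] at hxy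
    rcases cls_eq.1 hxy with h1 | h1
    · exact h1
    · exfalso
      rw [h1, dot_neg, hy] at hx
      exact one_ne_neg hp hx.symm
  · rw [Finset.disjoint_left]
    intro e he he'
    simp only [Finset.mem_image, Finset.mem_filter, Finset.mem_univ, true_and] at he he'
    obtain ⟨x, _, rfl⟩ := he
    obtain ⟨y, _, hy⟩ := he'
    exact absurd hy (by simp)

/-- the product formula -/
private theorem det_mul (a b v w : ZMod p × ZMod p) :
    det a b * det v w = dot a v * dot b w - dot a w * dot b v := by
  unfold det dot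
  ring

private theorem dot_comm (a v : ZMod p × ZMod p) : dot a v = dot v a := by
  unfold dot; ring

private theorem eq_or_neg_of_det {a b v : ZMod p × ZMod p} (hd : det a b = 0)
    (ha : dot a v ^ 2 = 1) (hb : dot b v ^ 2 = 1) : a = b ∨ a = -b := by
  have key : ∀ e f : ZMod p, dot a v = e → dot b v = f → e ^ 2 = 1 → f ^ 2 = 1 →
      a = (e * f) • b := by
    intro e f h1 h2 he hf
    unfold det at hd
    unfold dot at h1 h2
    ext
    · simp only [Prod.smul_fst, smul_eq_mul]
      have : a.1 * f = e * b.1 := by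
        linear_combination (-a.1) * h2 + b.1 * h1 + v.2 * hd
      linear_combination (-a.1) * hf + f * this
    · simp only [Prod.smul_snd, smul_eq_mul]
      have : a.2 * f = e * b.2 := by
        linear_combination (-a.2) * h2 + b.2 * h1 - v.1 * hd
      linear_combination (-a.2) * hf + f * this
  have h := key _ _ rfl rfl ha hb
  rcases sq_eq_one_iff.1 ha with h1 | h1 <;> rcases sq_eq_one_iff.1 hb with h2 | h2 <;>
    rw [h1, h2] at h
  · left; simpa using h
  · right; simpa using h
  · right; simpa using h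
  · left; simpa using h

private theorem lin_of_det {a b : ZMod p × ZMod p} (ha : a ≠ 0) (hb : b ≠ 0)
    (hd : det a b = 0) : lin a = lin b := by
  unfold det at hd
  unfold lin
  by_cases h1 : a.1 = 0
  · have h2 : a.2 ≠ 0 := fun h => ha (Prod.ext h1 h)
    have h3 : b.1 = 0 := by
      rw [h1] at hd
      have : a.2 * b.1 = 0 := by linear_combination (-1 : ZMod p) * hd
      exact (mul_eq_zero.1 this).resolve_left h2
    rw [if_pos h1, if_pos h3]
  · have h3 : b.1 ≠ 0 := by
      intro h3
      have : a.1 * b.2 = 0 := by rw [h3] at hd; linear_combination hd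
      exact hb (Prod.ext h3 ((mul_eq_zero.1 this).resolve_left h1))
    rw [if_neg h1, if_neg h3]
    congr 1
    rw [div_eq_div_iff h1 h3]
    linear_combination (-1 : ZMod p) * hd

private theorem det_of_lin {a b : ZMod p × ZMod p} (h : lin a = lin b) : det a b = 0 := by
  unfold det
  unfold lin at h
  by_cases h1 : a.1 = 0
  · by_cases h3 : b.1 = 0
    · rw [h1, h3]; ring
    · rw [if_pos h1, if_neg h3] at h
      exact absurd h (by simp)
  · by_cases h3 : b.1 = 0
    · rw [if_neg h1, if_pos h3] at h
      exact absurd h (by simp)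
    · rw [if_neg h1, if_neg h3, Option.some.injEq, div_eq_div_iff h1 h3] at h
      linear_combination (-1 : ZMod p) * h

private theorem cf_ne {a : ZMod p × ZMod p} (ha : a ≠ 0) : cf a ≠ 0 := by
  unfold cf
  split_ifs with h
  · exact fun h2 => ha (Prod.ext h h2)
  · exact h

private theorem idx_lt (hp : p ≠ 2) {a : ZMod p × ZMod p} (ha : a ≠ 0) :
    idx a < (p - 1) / 2 := by
  unfold idx
  have h1 := ZMod.natAbs_valMinAbs_le (cf a)
  have h2 : (cf a).valMinAbs.natAbs ≠ 0 := by
    rw [Ne, Int.natAbs_eq_zero, ZMod.valMinAbs_eq_zero]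
    exact cf_ne ha
  have h3 : p % 2 = 1 := (Nat.Prime.eq_two_or_odd (Fact.out : p.Prime)).resolve_left hp
  omega

private theorem eq_of_idx {a b : ZMod p × ZMod p} (ha : a ≠ 0) (hb : b ≠ 0)
    (hl : lin a = lin b) (hi : idx a = idx b) : a = b ∨ a = -b := by
  have h1 : (cf a).valMinAbs.natAbs = (cf b).valMinAbs.natAbs := by
    unfold idx at hi
    have h2 : (cf a).valMinAbs.natAbs ≠ 0 := by
      rw [Ne, Int.natAbs_eq_zero, ZMod.valMinAbs_eq_zero]
      exact cf_ne ha
    have h3 : (cf b).valMinAbs.natAbs ≠ 0 := by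
      rw [Ne, Int.natAbs_eq_zero, ZMod.valMinAbs_eq_zero]
      exact cf_ne hb
    omega
  rw [ZMod.natAbs_valMinAbs_eq_natAbs_valMinAbs] at h1
  unfold lin at hl
  unfold cf at h1
  by_cases h2 : a.1 = 0
  · by_cases h3 : b.1 = 0
    · rw [if_pos h2, if_pos h3] at h1
      rcases h1 with h1 | h1
      · left; exact Prod.ext (h2.trans h3.symm) h1
      · right
        refine Prod.ext ?_ h1
        rw [h2, Prod.fst_neg, h3, neg_zero]
    · rw [if_pos h2, if_neg h3] at hl
      exact absurd hl (by simp)
  · by_cases h3 : b.1 = 0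
    · rw [if_neg h2, if_pos h3] at hl
      exact absurd hl (by simp)
    · rw [if_neg h2, if_neg h3] at h1
      rw [if_neg h2, if_neg h3, Option.some.injEq, div_eq_div_iff h2 h3] at hl
      rcases h1 with h1 | h1
      · left
        refine Prod.ext h1 ?_
        have : a.2 * b.1 = b.2 * b.1 := by rw [hl, h1]
        exact mul_right_cancel₀ h3 this
      · right
        refine Prod.ext h1 ?_
        have : a.2 * b.1 = (-b).2 * b.1 := by rw [hl, h1, Prod.snd_neg]; ring
        exact mul_right_cancel₀ h3 this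

/-- Two members with independent indices: exactly two common elements, of the first kind. -/
private theorem inter_ind (hp : p ≠ 2) (h : ℕ → Finset ℕ) {a b : ZMod p × ZMod p}
    (hd : det a b ≠ 0) : ∃ v w : ZMod p × ZMod p, cls v ≠ cls w ∧
      blk h a ∩ blk h b = {Sum.inl (cls v), Sum.inl (cls w)} := by
  have h11 := one_ne_neg hp
  obtain ⟨v, hv1, hv2⟩ : ∃ v : ZMod p × ZMod p, dot a v = 1 ∧ dot b v = 1 := by
    refine ⟨((b.2 - a.2) / det a b, (a.1 - b.1) / det a b), ?_, ?_⟩
    · unfold dot
      field_simp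
      unfold det
      ring
    · unfold dot
      field_simp
      unfold det
      ring
  obtain ⟨w, hw1, hw2⟩ : ∃ w : ZMod p × ZMod p, dot a w = 1 ∧ dot b w = -1 := by
    refine ⟨((b.2 + a.2) / det a b, (-a.1 - b.1) / det a b), ?_, ?_⟩
    · unfold dot
      field_simp
      unfold det
      ring
    · unfold dot
      field_simp
      unfold det
      ring
  -- uniqueness
  have huniq : ∀ x y : ZMod p × ZMod p, dot a x = dot a y → dot b x = dot b y → x = y := by
    intro x y h1 h2
    unfold dot at h1 h2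
    have e1 : det a b * (x.1 - y.1) = 0 := by
      unfold det
      linear_combination b.2 * h1 - a.2 * h2
    have e2 : det a b * (x.2 - y.2) = 0 := by
      unfold det
      linear_combination a.1 * h2 - b.1 * h1
    exact Prod.ext (sub_eq_zero.1 ((mul_eq_zero.1 e1).resolve_left hd))
      (sub_eq_zero.1 ((mul_eq_zero.1 e2).resolve_left hd))
  refine ⟨v, w, ?_, ?_⟩
  · intro hc
    rcases cls_eq.1 hc with h1 | h1
    · rw [h1, hw2] at hv2
      exact h11 hv2.symm
    · rw [h1, dot_neg, hw1] at hv1
      exact h11 hv1.symm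
  · ext e
    rw [Finset.mem_inter, Finset.mem_insert, Finset.mem_singleton]
    rcases e with e | ⟨D, z⟩
    · constructor
      · rintro ⟨h1, h2⟩
        obtain ⟨x, rfl, hx⟩ := inl_form h1
        rw [mem_inl] at h2
        rcases sq_eq_one_iff.1 h2 with h3 | h3
        · left
          rw [huniq x v (hx.trans hv1.symm) (h3.trans hv2.symm)]
        · right
          rw [huniq x w (hx.trans hw1.symm) (h3.trans hw2.symm)]
      · rintro (h1 | h1)
        · rw [h1, mem_inl, mem_inl, hv1, hv2]
          exact ⟨by ring, by ring⟩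
        · rw [h1, mem_inl, mem_inl, hw1, hw2]
          exact ⟨by ring, by ring⟩
    · rw [mem_inr, mem_inr]
      constructor
      · rintro ⟨⟨h1, _⟩, h2, _⟩
        exact absurd (det_of_lin (h1.symm.trans h2)) hd
      · rintro (h1 | h1)
        · exact absurd h1 (by simp)
        · exact absurd h1 (by simp)

/-- Two members of one bundle. -/
private theorem inter_dep (h : ℕ → Finset ℕ) {a b : ZMod p × ZMod p} (ha : a ≠ 0) (hb : b ≠ 0)
    (hd : det a b = 0) (h1 : a ≠ b) (h2 : a ≠ -b) :
    blk h a ∩ blk h b = (h (idx a) ∩ h (idx b)).image (fun z => Sum.inr (lin a, z)) := by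
  have hl := lin_of_det ha hb hd
  ext e
  rw [Finset.mem_inter]
  rcases e with e | ⟨D, z⟩
  · constructor
    · rintro ⟨h3, h4⟩
      exfalso
      obtain ⟨x, rfl, hx⟩ := inl_form h3
      rw [mem_inl] at h4
      rcases eq_or_neg_of_det hd (by rw [hx]; ring) h4 with h5 | h5
      · exact h1 h5
      · exact h2 h5
    · intro h3
      simp at h3
  · rw [mem_inr, mem_inr]
    simp only [Finset.mem_image, Finset.mem_inter, Sum.inr.injEq, Prod.mk.injEq]
    constructor
    · rintro ⟨⟨h3, h4⟩, _, h6⟩
      exact ⟨z, ⟨h4, h6⟩, h3.symm, rfl⟩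
    · rintro ⟨n, ⟨h3, h4⟩, h5, h6⟩
      subst h6
      exact ⟨⟨h5.symm, h3⟩, h5.symm.trans hl, h4⟩

private theorem kinds (hp : p ≠ 2) (h : ℕ → Finset ℕ) {a b c d : ZMod p × ZMod p} (ha : a ≠ 0)
    (hb : b ≠ 0) (hd : det a b = 0) (h1 : a ≠ b) (h2 : a ≠ -b) (hd' : det c d ≠ 0) :
    blk h a ∩ blk h b ≠ blk h c ∩ blk h d := by
  intro he
  obtain ⟨v, w, _, hvw⟩ := inter_ind hp h hd'
  rw [inter_dep h ha hb hd h1 h2, hvw] at he
  have : (Sum.inl (cls v) : Sym2 (ZMod p × ZMod p) ⊕ (Option (ZMod p) × ℕ)) ∈
      (h (idx a) ∩ h (idx b)).image (fun z => (Sum.inr (lin a, z) :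
        Sym2 (ZMod p × ZMod p) ⊕ (Option (ZMod p) × ℕ))) := by
    rw [he]; exact Finset.mem_insert_self _ _
  simp at this

private theorem nosun (hp : p ≠ 2) (h : ℕ → Finset ℕ) {t : ℕ} {G : Finset (Finset ℕ)}
    (hG : Adm t 2 G) (hm : ∀ n < (p - 1) / 2, h n ∈ G)
    (hi : ∀ m < (p - 1) / 2, ∀ n < (p - 1) / 2, h m = h n → m = n)
    {a b c : ZMod p × ZMod p} (ha : a ≠ 0) (hb : b ≠ 0) (hc : c ≠ 0)
    (hab : a ≠ b) (hab' : a ≠ -b) (hac : a ≠ c) (hac' : a ≠ -c) (hbc : b ≠ c) (hbc' : b ≠ -c)
    (h4 : blk h a ∩ blk h b = blk h a ∩ blk h c)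
    (h5 : blk h a ∩ blk h c = blk h b ∩ blk h c) : False := by
  by_cases d1 : det a b = 0
  · by_cases d2 : det a c = 0
    · have l1 := lin_of_det ha hb d1
      have l2 := lin_of_det ha hc d2
      have d3 : det b c = 0 := det_of_lin (l1.symm.trans l2)
      rw [inter_dep h ha hb d1 hab hab', inter_dep h ha hc d2 hac hac'] at h4
      rw [inter_dep h ha hc d2 hac hac', inter_dep h hb hc d3 hbc hbc', ← l1] at h5
      have hinj : Function.Injective (fun z : ℕ => (Sum.inr (lin a, z) :
          Sym2 (ZMod p × ZMod p) ⊕ (Option (ZMod p) × ℕ))) := by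
        intro x y hxy
        simpa using hxy
      have i1 := idx_lt hp ha
      have i2 := idx_lt hp hb
      have i3 := idx_lt hp hc
      refine hG.2.2 _ (hm _ i1) _ (hm _ i2) _ (hm _ i3) ⟨?_, ?_, ?_,
        Finset.image_injective hinj h4, Finset.image_injective hinj h5⟩
      · intro he
        rcases eq_of_idx ha hb l1 (hi _ i1 _ i2 he) with h6 | h6
        · exact hab h6
        · exact hab' h6
      · intro he
        rcases eq_of_idx ha hc l2 (hi _ i1 _ i3 he) with h6 | h6
        · exact hac h6
        · exact hac' h6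
      · intro he
        rcases eq_of_idx hb hc (l1.symm.trans l2) (hi _ i2 _ i3 he) with h6 | h6
        · exact hbc h6
        · exact hbc' h6
    · exact kinds hp h ha hb d1 hab hab' d2 h4
  · by_cases d2 : det a c = 0
    · exact kinds hp h ha hc d2 hac hac' d1 h4.symm
    · by_cases d3 : det b c = 0
      · exact kinds hp h hb hc d3 hbc hbc' d2 h5.symm
      · obtain ⟨v, w, hne, hvw⟩ := inter_ind hp h d1
        have m1 : (Sum.inl (cls v) : Sym2 (ZMod p × ZMod p) ⊕ (Option (ZMod p) × ℕ)) ∈
            blk h a ∩ blk h b := by rw [hvw]; simp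
        have m2 : (Sum.inl (cls w) : Sym2 (ZMod p × ZMod p) ⊕ (Option (ZMod p) × ℕ)) ∈
            blk h a ∩ blk h b := by rw [hvw]; simp
        have m3 := m1
        have m4 := m2
        rw [h4] at m3 m4
        rw [Finset.mem_inter, mem_inl, mem_inl] at m1 m2 m3 m4
        obtain ⟨av, bv⟩ := m1
        obtain ⟨aw, bw⟩ := m2
        obtain ⟨_, cv⟩ := m3
        obtain ⟨_, cw⟩ := m4
        have hvw0 : det v w ≠ 0 := by
          intro h0
          rw [dot_comm] at av aw
          rcases eq_or_neg_of_det h0 av aw with h6 | h6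
          · exact hne (cls_eq.2 (Or.inl h6))
          · exact hne (cls_eq.2 (Or.inr h6))
        have key : ∀ x y : ZMod p × ZMod p, det x y ≠ 0 → dot x v ^ 2 = 1 → dot x w ^ 2 = 1 →
            dot y v ^ 2 = 1 → dot y w ^ 2 = 1 → dot x v * dot x w ≠ dot y v * dot y w := by
          intro x y hxy xv xw yv yw he
          apply mul_ne_zero hxy hvw0
          rw [det_mul]
          linear_combination dot x w * dot y w * he - dot x v * dot y w * xw +
            dot x w * dot y v * yw
        have k1 := key a b d1 av aw bv bw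
        have k2 := key a c d2 av aw cv cw
        have k3 := key b c d3 bv bw cv cw
        have sq : ∀ x y : ZMod p, x ^ 2 = 1 → y ^ 2 = 1 → x * y = 1 ∨ x * y = -1 := by
          intro x y hx hy
          apply sq_eq_one_iff.1
          rw [mul_pow, hx, hy, one_mul]
        rcases sq _ _ av aw with s1 | s1 <;> rcases sq _ _ bv bw with s2 | s2 <;>
          rcases sq _ _ cv cw with s3 | s3 <;> rw [s1, s2] at k1 <;> rw [s1, s3] at k2 <;>
          rw [s2, s3] at k3 <;> first | exact k1 rfl | exact k2 rfl | exact k3 rfl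

end PlaneAux

theorem plane {p : ℕ} [Fact p.Prime] (hp : p ≠ 2) {t : ℕ} {G : Finset (Finset ℕ)}
    (hG : Adm t 2 G) (hI : Inter G) (hc : (p - 1) / 2 ≤ G.card) :
    ∃ (α : Type) (_ : DecidableEq α) (_ : Countable α) (F : Finset (Finset α)),
      Adm (p + t) 2 F ∧ Inter F ∧ 2 * F.card = p ^ 2 - 1 := by
  obtain ⟨g0⟩ : Nonempty (Fin ((p - 1) / 2) ↪ G) := by
    apply Function.Embedding.nonempty_of_card_le
    simpa using hc
  let h : ℕ → Finset ℕ := fun n =>
    if hn : n < (p - 1) / 2 then (g0 ⟨n, hn⟩ : Finset ℕ) else ∅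
  have hh : ∀ n (hn : n < (p - 1) / 2), h n = (g0 ⟨n, hn⟩ : Finset ℕ) := fun n hn => dif_pos hn
  have hm : ∀ n < (p - 1) / 2, h n ∈ G := by
    intro n hn
    rw [hh n hn]
    exact (g0 ⟨n, hn⟩).2
  have hi : ∀ m < (p - 1) / 2, ∀ n < (p - 1) / 2, h m = h n → m = n := by
    intro m hm n hn he
    rw [hh m hm, hh n hn] at he
    have := g0.injective (Subtype.ext he)
    simpa using this
  have pair : ∀ a b : ZMod p × ZMod p, a ≠ 0 → b ≠ 0 → a ≠ b → a ≠ -b →
      1 ≤ (blk h a ∩ blk h b).card ∧ (blk h a ∩ blk h b).card ≤ 2 := by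
    intro a b ha hb h1 h2
    by_cases hd : det a b = 0
    · have hl := lin_of_det ha hb hd
      have i1 := idx_lt hp ha
      have i2 := idx_lt hp hb
      have hne : h (idx a) ≠ h (idx b) := by
        intro he
        rcases eq_of_idx ha hb hl (hi _ i1 _ i2 he) with h6 | h6
        · exact h1 h6
        · exact h2 h6
      rw [inter_dep h ha hb hd h1 h2, Finset.card_image_of_injective]
      · exact ⟨Finset.card_pos.mpr (hI _ (hm _ i1) _ (hm _ i2) hne),
          hG.2.1 _ (hm _ i1) _ (hm _ i2) hne⟩
      · intro x y hxy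
        simpa using hxy
    · obtain ⟨v, w, hvw, he⟩ := inter_ind hp h hd
      rw [he, Finset.card_pair (fun h3 => hvw (Sum.inl.inj h3))]
      exact ⟨by norm_num, le_refl _⟩
  have hcard : ∀ a : ZMod p × ZMod p, a ≠ 0 → (blk h a).card = p + t := by
    intro a ha
    rw [card_blk hp h ha, hG.1 _ (hm _ (idx_lt hp ha))]
  have hp2 : 2 ≤ p := (Fact.out : p.Prime).two_le
  have hneg : ∀ a : ZMod p × ZMod p, blk h (-a) = blk h a := by
    intro a
    have e1 : lin (-a) = lin a := by
      unfold lin
      simp only [Prod.fst_neg, Prod.snd_neg, neg_eq_zero, neg_div_neg_eq]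
    have e2 : idx (-a) = idx a := by
      unfold idx
      have : cf (-a) = - cf a := by
        unfold cf
        simp only [Prod.fst_neg, Prod.snd_neg, neg_eq_zero]
        split_ifs <;> rfl
      rw [this, ZMod.natAbs_valMinAbs_neg]
    ext e
    rcases e with e | ⟨D, z⟩
    · have key : ∀ a : ZMod p × ZMod p, (Sum.inl e : Sym2 (ZMod p × ZMod p) ⊕
          (Option (ZMod p) × ℕ)) ∈ blk h a → Sum.inl e ∈ blk h (-a) := by
        intro a h1
        obtain ⟨x, rfl, _⟩ := inl_form h1
        rw [mem_inl] at h1 ⊢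
        rw [dot_comm, dot_neg, dot_comm, neg_sq]
        exact h1
      constructor
      · intro h1
        have := key _ h1
        rwa [neg_neg] at this
      · exact key a
    · rw [mem_inr, mem_inr, e1, e2]
  have hinj : ∀ a b : ZMod p × ZMod p, a ≠ 0 → b ≠ 0 → blk h a = blk h b → a = b ∨ a = -b := by
    intro a b ha hb he
    by_contra hne
    rw [not_or] at hne
    have h1 := (pair a b ha hb hne.1 hne.2).2
    have h3 : p % 2 = 1 := (Nat.Prime.eq_two_or_odd (Fact.out : p.Prime)).resolve_left hp
    rw [he, Finset.inter_self, hcard b hb] at h1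
    omega
  refine ⟨Sym2 (ZMod p × ZMod p) ⊕ (Option (ZMod p) × ℕ), inferInstance, inferInstance,
    (Finset.univ.filter (fun a : ZMod p × ZMod p => a ≠ 0)).image (blk h), ⟨?_, ?_, ?_⟩, ?_, ?_⟩
  · intro A hA
    obtain ⟨a, ha, rfl⟩ := Finset.mem_image.1 hA
    exact hcard a (Finset.mem_filter.1 ha).2
  · intro A hA B hB hAB
    obtain ⟨a, ha, rfl⟩ := Finset.mem_image.1 hA
    obtain ⟨b, hb, rfl⟩ := Finset.mem_image.1 hB
    exact (pair a b (Finset.mem_filter.1 ha).2 (Finset.mem_filter.1 hb).2
      (fun h1 => hAB (by rw [h1])) (fun h1 => hAB (by rw [h1, hneg]))).2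
  · intro A hA B hB C hC
    obtain ⟨a, ha, rfl⟩ := Finset.mem_image.1 hA
    obtain ⟨b, hb, rfl⟩ := Finset.mem_image.1 hB
    obtain ⟨c, hc, rfl⟩ := Finset.mem_image.1 hC
    rintro ⟨h1, h2, h3, h4, h5⟩
    exact nosun hp h hG hm hi (Finset.mem_filter.1 ha).2 (Finset.mem_filter.1 hb).2
      (Finset.mem_filter.1 hc).2 (fun h6 => h1 (by rw [h6])) (fun h6 => h1 (by rw [h6, hneg]))
      (fun h6 => h2 (by rw [h6])) (fun h6 => h2 (by rw [h6, hneg]))
      (fun h6 => h3 (by rw [h6])) (fun h6 => h3 (by rw [h6, hneg])) h4 h5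
  · intro A hA B hB hAB
    obtain ⟨a, ha, rfl⟩ := Finset.mem_image.1 hA
    obtain ⟨b, hb, rfl⟩ := Finset.mem_image.1 hB
    exact Finset.card_pos.1 (pair a b (Finset.mem_filter.1 ha).2 (Finset.mem_filter.1 hb).2
      (fun h1 => hAB (by rw [h1])) (fun h1 => hAB (by rw [h1, hneg]))).1
  · have h1 := Finset.card_eq_sum_card_image (blk h)
      (Finset.univ.filter (fun a : ZMod p × ZMod p => a ≠ 0))
    have h2 : (Finset.univ.filter (fun a : ZMod p × ZMod p => a ≠ 0)).card = p ^ 2 - 1 := by
      rw [Finset.filter_ne', Finset.card_erase_of_mem (Finset.mem_univ _), Finset.card_univ,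
        Fintype.card_prod, ZMod.card, sq]
    rw [Finset.sum_const_nat (m := 2), h2] at h1
    · rw [mul_comm]
      exact h1.symm
    · intro B hB
      obtain ⟨a, ha, rfl⟩ := Finset.mem_image.1 hB
      have ha0 := (Finset.mem_filter.1 ha).2
      have : (Finset.univ.filter (fun a : ZMod p × ZMod p => a ≠ 0)).filter
          (fun x => blk h x = blk h a) = {a, -a} := by
        ext x
        rw [Finset.mem_filter, Finset.mem_filter, Finset.mem_insert, Finset.mem_singleton]
        constructor
        · rintro ⟨⟨_, h3⟩, h4⟩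
          exact hinj x a h3 ha0 h4
        · rintro (rfl | rfl)
          · exact ⟨⟨Finset.mem_univ _, ha0⟩, rfl⟩
          · exact ⟨⟨Finset.mem_univ _, neg_ne_zero.2 ha0⟩, hneg a⟩
      rw [this, Finset.card_pair]
      intro h3
      apply ha0
      have h4 : ∀ x : ZMod p, x = -x → x = 0 := by
        intro x hx
        have : (2 : ZMod p) * x = 0 := by linear_combination hx
        exact (mul_eq_zero.1 this).resolve_left (two_ne hp)
      have h5 := congrArg Prod.fst h3
      have h6 := congrArg Prod.snd h3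
      rw [Prod.fst_neg] at h5
      rw [Prod.snd_neg] at h6
      exact Prod.ext (h4 _ h5) (h4 _ h6)

end Pool.Agent.Work.MP_4b9821_co
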