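import Pool.Agent.Work.MP_4b9821_co.Defs

/-!
L/Star (size S). PROOF. Vertices `i : Fin (l + 1)`, ground set the edges `Sym2 (Fin (l + 1))`; the member of
`i` is the set of the edges `s(i, j)`, `j ≠ i`. It has `l` elements, the members of `i ≠ j` meet exactly in
`s(i, j)`. For distinct `i, j, k` the intersections `{s(i, j)}` and `{s(i, k)}` are different, so there is
no sunflower. The members are distinct for `l ≥ 2` (for `l = 1` the two members coincide; so `2 ≤ l`).
-/

set_option autoImplicit false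

namespace Pool.Agent.Work.MP_4b9821_co

/-- the edges at a vertex -/
private def st (l : ℕ) (i : Fin (l + 1)) : Finset (Sym2 (Fin (l + 1))) :=
  (Finset.univ.erase i).image (fun j => s(i, j))

private theorem mem_st {l : ℕ} {i : Fin (l + 1)} {e : Sym2 (Fin (l + 1))} :
    e ∈ st l i ↔ ∃ j, j ≠ i ∧ s(i, j) = e := by
  simp [st]

private theorem card_st (l : ℕ) (i : Fin (l + 1)) : (st l i).card = l := by
  rw [st, Finset.card_image_of_injective, Finset.card_erase_of_mem (Finset.mem_univ i),
    Finset.card_univ, Fintype.card_fin]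
  · rfl
  · intro j k h
    exact Sym2.congr_right.mp h

private theorem inter_st {l : ℕ} {i j : Fin (l + 1)} (h : i ≠ j) :
    st l i ∩ st l j = {s(i, j)} := by
  ext e
  rw [Finset.mem_inter, mem_st, mem_st, Finset.mem_singleton]
  constructor
  · rintro ⟨⟨a, ha, rfl⟩, b, hb, hab⟩
    rw [Sym2.eq_iff] at hab
    rcases hab with ⟨h1, h2⟩ | ⟨h1, h2⟩
    · exact absurd h1.symm h
    · rw [h1]
  · rintro rfl
    exact ⟨⟨j, h.symm, rfl⟩, i, h, Sym2.eq_swap⟩

private theorem st_inj {l : ℕ} (hl : 2 ≤ l) : Function.Injective (st l) := by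
  intro i j h
  by_contra hij
  have h1 := inter_st hij
  rw [h, Finset.inter_self] at h1
  have h2 := card_st l j
  rw [h1, Finset.card_singleton] at h2
  omega

theorem star {l : ℕ} (hl : 2 ≤ l) : ∃ F : Finset (Finset (Sym2 (Fin (l + 1)))),
    Adm l 2 F ∧ Inter F ∧ F.card = l + 1 := by
  refine ⟨Finset.univ.image (st l), ⟨?_, ?_, ?_⟩, ?_, ?_⟩
  · intro A hA
    obtain ⟨i, -, rfl⟩ := Finset.mem_image.mp hA
    exact card_st l i
  · intro A hA B hB hAB
    obtain ⟨i, -, rfl⟩ := Finset.mem_image.mp hA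
    obtain ⟨j, -, rfl⟩ := Finset.mem_image.mp hB
    have hij : i ≠ j := fun h => hAB (by rw [h])
    rw [inter_st hij, Finset.card_singleton]
    norm_num
  · rintro A hA B hB C hC ⟨h1, h2, h3, h4, -⟩
    obtain ⟨i, -, rfl⟩ := Finset.mem_image.mp hA
    obtain ⟨j, -, rfl⟩ := Finset.mem_image.mp hB
    obtain ⟨k, -, rfl⟩ := Finset.mem_image.mp hC
    have hij : i ≠ j := fun h => h1 (by rw [h])
    have hik : i ≠ k := fun h => h2 (by rw [h])
    rw [inter_st hij, inter_st hik, Finset.singleton_inj] at h4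
    exact h3 (by rw [Sym2.congr_right.mp h4])
  · intro A hA B hB hAB
    obtain ⟨i, -, rfl⟩ := Finset.mem_image.mp hA
    obtain ⟨j, -, rfl⟩ := Finset.mem_image.mp hB
    have hij : i ≠ j := fun h => hAB (by rw [h])
    rw [inter_st hij]
    exact Finset.singleton_nonempty _
  · rw [Finset.card_image_of_injective _ (st_inj hl), Finset.card_univ, Fintype.card_fin]

end Pool.Agent.Work.MP_4b9821_co
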