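import Pool.Agent.Work.MP_4b9821_co.L.Transfer
import Pool.Agent.Work.MP_4b9821_co.L.Star
import Pool.Agent.Work.MP_4b9821_co.L.Cube
import Pool.Agent.Work.MP_4b9821_co.L.Plane

/-!
L/Asym (size M). PROOFS.

`cube_I3`: `exists_field`, `exists_I3 t`, `cube`, `le_I3` (the ground type is countable).
`plane_I3`: `exists_I3 t`, `plane`, `le_I3`.
`I3_star`: for `s` odd, `s ≥ 3` (or `s = 1` separately: `2 ≤ I3 1 2` is false, so take `s ≥ 3`):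
`2 ^ s ≤ I3 (2 ^ s - 1) 2` by `star` (`l = 2 ^ s - 1 ≥ 2`), so `cube_I3` gives
`3 * 4 ^ s ≤ I3 (3 * 2 ^ s - 1) 2`.
`I3_lower`: for `t ≥ 24` let `s ≥ 3` be the largest odd number with `3 * 2 ^ s ≤ t`; then
`12 * 2 ^ s > t`, so by `I3_mono`: `I3 t 2 ≥ 3 * 4 ^ s ≥ 3 * (t / 12) ^ 2`, i.e. `t ^ 2 ≤ 48 * I3 t 2`.

`limsup_lower`: given `ε, L`. For `s` odd and large let `t = 7 * (⌊sqrt (2 ^ s)⌋ + 1)` (`Nat.sqrt`): then
`t ^ 2 ≥ 49 * 2 ^ s ≥ 48 * 2 ^ s`, so `I3 t 2 ≥ 2 ^ s` by `I3_lower`, and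
`I3 (2 ^ (s + 1) + t) 2 ≥ 3 * 4 ^ s = (3 / 4) * (2 ^ (s + 1)) ^ 2`; with `l = 2 ^ (s + 1) + t`,
`t / 2 ^ s → 0`, so `(2 ^ (s + 1)) ^ 2 / l ^ 2 → 1`.
`all_lower`: for `l` large let `t = 5 * (⌊sqrt l⌋ + 1)`, so `t ^ 2 ≥ 25 l ≥ 24 * l` and `I3 t 2 ≥ l / 2`. By
Bertrand (`Nat.exists_prime_lt_and_le_two_mul`) there is a prime `p` with `(l - t) / 2 < p ≤ l - t`
(apply it to `n = (l - t) / 2`); `(p - 1) / 2 ≤ l / 2 ≤ I3 t 2`, so `plane_I3` and `I3_mono` give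
`2 * I3 l 2 ≥ p ^ 2 - 1 ≥ ((l - t) / 2) ^ 2 - 1`.
-/

set_option autoImplicit false

namespace Pool.Agent.Work.MP_4b9821_co

theorem cube_I3 {s t : ℕ} (hs : Odd s) (h : 2 ^ s ≤ I3 t 2) :
    3 * 4 ^ s ≤ I3 (2 ^ (s + 1) + t) 2 := by
  classical
  obtain ⟨K, i1, i2, i3, hcard, hinj⟩ := exists_field hs
  obtain ⟨G, hG, hI, hGc⟩ := exists_I3 t
  obtain ⟨F, hF, hFI, hFc⟩ := cube hinj hG hI (by rw [hcard, hGc]; exact h)
  have h1 := le_I3 hF hFI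
  rw [hFc, hcard] at h1
  have h2 : 3 * 4 ^ s = 3 * (2 ^ s) ^ 2 := by
    rw [← pow_mul, mul_comm s 2, pow_mul]
    norm_num
  have h3 : 2 ^ (s + 1) + t = 2 * 2 ^ s + t := by rw [pow_succ, mul_comm]
  rw [h2, h3]
  exact h1

theorem plane_I3 {p t : ℕ} (hp : p.Prime) (hp2 : p ≠ 2) (h : (p - 1) / 2 ≤ I3 t 2) :
    p ^ 2 - 1 ≤ 2 * I3 (p + t) 2 := by
  have := Fact.mk hp
  obtain ⟨G, hG, hI, hGc⟩ := exists_I3 t
  obtain ⟨α, i1, i2, F, hF, hFI, hFc⟩ := plane hp2 hG hI (by rw [hGc]; exact h)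
  have h1 := le_I3 hF hFI
  omega

private theorem I3_star {s : ℕ} (hs : Odd s) (h3 : 3 ≤ s) {t : ℕ} (ht : 3 * 2 ^ s ≤ t) :
    3 * 4 ^ s ≤ I3 t 2 := by
  have h8 : 2 ^ 3 ≤ 2 ^ s := Nat.pow_le_pow_right (by norm_num) h3
  obtain ⟨F, hF, hFI, hFc⟩ := star (l := 2 ^ s - 1) (by omega)
  have h1 := le_I3 hF hFI
  have h2 : 3 * 4 ^ s ≤ I3 (2 ^ (s + 1) + (2 ^ s - 1)) 2 := cube_I3 hs (by omega)
  refine h2.trans (I3_mono ?_)
  rw [pow_succ]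
  omega

theorem I3_lower {t : ℕ} (ht : 24 ≤ t) : t ^ 2 ≤ 48 * I3 t 2 := by
  have h0 : t / 3 ≠ 0 := by omega
  obtain ⟨k, h1, h2, h3⟩ : ∃ k, 2 ^ k ≤ t / 3 ∧ t / 3 < 2 ^ (k + 1) ∧ 3 ≤ k :=
    ⟨Nat.log 2 (t / 3), Nat.pow_log_le_self 2 h0, Nat.lt_pow_succ_log_self (by norm_num) _,
      (Nat.le_log_iff_pow_le (by norm_num) h0).2 (by norm_num; omega)⟩
  obtain ⟨s, hs, hs3, hst, hts⟩ : ∃ s, Odd s ∧ 3 ≤ s ∧ 3 * 2 ^ s ≤ t ∧ t < 12 * 2 ^ s := by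
    rcases Nat.even_or_odd k with he | ho
    · obtain ⟨j, hj⟩ := he
      obtain ⟨s, rfl⟩ : ∃ s, k = s + 1 := ⟨k - 1, by omega⟩
      refine ⟨s, ?_, by omega, ?_, ?_⟩
      · rw [Nat.odd_iff]
        omega
      · rw [pow_succ] at h1
        omega
      · rw [pow_succ, pow_succ] at h2
        omega
    · refine ⟨k, ho, h3, by omega, ?_⟩
      rw [pow_succ] at h2
      omega
  have h4 := I3_star hs hs3 hst
  have h5 : t ^ 2 ≤ (12 * 2 ^ s) ^ 2 := Nat.pow_le_pow_left hts.le 2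
  have h6 : (12 * 2 ^ s) ^ 2 = 48 * (3 * 4 ^ s) := by
    have h7 : 4 ^ s = (2 ^ s) ^ 2 := by
      rw [← pow_mul, mul_comm s 2, pow_mul]
      norm_num
    rw [h7]
    ring
  calc t ^ 2 ≤ 48 * (3 * 4 ^ s) := by rw [← h6]; exact h5
    _ ≤ 48 * I3 t 2 := Nat.mul_le_mul_left _ h4

theorem limsup_lower (ε : ℝ) (hε : 0 < ε) (L : ℕ) : ∃ l ≥ L,
    (3 / 4 - ε) * (l : ℝ) ^ 2 ≤ I3 l 2 := by
  obtain ⟨R, hR⟩ := exists_nat_ge (21 / ε)
  set N := max (max R L) 4 with hN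
  set s := 2 * N ^ 2 + 1 with hs
  set M := 2 ^ s with hM
  set r := Nat.sqrt M with hr
  have hso : Odd s := ⟨N ^ 2, rfl⟩
  have hN4 : 4 ≤ N := le_max_right _ _
  have hNR : R ≤ N := (le_max_left _ _).trans (le_max_left _ _)
  have hNL : L ≤ N := (le_max_right _ _).trans (le_max_left _ _)
  have hNr : N ≤ r := by
    rw [hr, Nat.le_sqrt]
    have h1 : s < 2 ^ s := Nat.lt_two_pow_self
    have h2 : N * N = N ^ 2 := by ring
    rw [h2]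
    omega
  have hrM : r * r ≤ M := Nat.sqrt_le M
  have hMr : M < (r + 1) * (r + 1) := Nat.lt_succ_sqrt M
  set t := 7 * (r + 1) with ht
  have h1 : M ≤ I3 t 2 := by
    have h2 := I3_lower (t := t) (by omega)
    have h3 : 49 * M ≤ t ^ 2 := by
      rw [ht]
      nlinarith
    omega
  have h2 := cube_I3 hso h1
  refine ⟨2 ^ (s + 1) + t, ?_, ?_⟩
  · have h3 : r ≤ r * r := Nat.le_mul_self r
    have h4 : M ≤ 2 ^ (s + 1) := by
      rw [pow_succ]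
      omega
    show L ≤ _
    omega
  · have h3 : (3 : ℝ) * (M : ℝ) ^ 2 ≤ I3 (2 ^ (s + 1) + t) 2 := by
      have h4 : 3 * M ^ 2 ≤ I3 (2 ^ (s + 1) + t) 2 := by
        refine le_trans (le_of_eq ?_) h2
        rw [hM, ← pow_mul, mul_comm s 2, pow_mul]
        norm_num
      exact_mod_cast h4
    refine le_trans ?_ h3
    have hl : ((2 ^ (s + 1) + t : ℕ) : ℝ) = 2 * M + t := by
      rw [pow_succ, ← hM, Nat.cast_add, Nat.cast_mul, mul_comm]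
      norm_num
    rw [hl]
    have hM0 : (0 : ℝ) < M := by
      have : 0 < M := by positivity
      exact_mod_cast this
    have hrR : 21 / ε ≤ r := hR.trans (by exact_mod_cast hNR.trans hNr)
    have hr1 : (1 : ℝ) ≤ r := by
      have : 1 ≤ r := by omega
      exact_mod_cast this
    have hrr : (r : ℝ) * r ≤ M := by exact_mod_cast hrM
    have h21 : 21 ≤ ε * r := by
      rw [div_le_iff₀ hε] at hrR
      linarith
    have htM : (t : ℝ) ≤ 2 * (ε / 3) * M := by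
      have e1 : (t : ℝ) = 7 * (r + 1) := by
        rw [ht]
        push_cast
        ring
      rw [e1]
      nlinarith
    have ht0 : (0 : ℝ) ≤ t := Nat.cast_nonneg t
    rcases le_or_gt (3 / 4 - ε) 0 with h0 | h0
    · have : (3 / 4 - ε) * (2 * (M : ℝ) + t) ^ 2 ≤ 0 := mul_nonpos_of_nonpos_of_nonneg h0 (by positivity)
      have h5 : (0 : ℝ) ≤ 3 * (M : ℝ) ^ 2 := by positivity
      linarith
    · have h5 : 2 * (M : ℝ) + t ≤ 2 * (1 + ε / 3) * M := by linarith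
      have h6 : (2 * (M : ℝ) + t) ^ 2 ≤ (2 * (1 + ε / 3) * M) ^ 2 :=
        pow_le_pow_left₀ (by positivity) h5 2
      have h7 : (3 / 4 - ε) * (2 * (M : ℝ) + t) ^ 2 ≤ (3 / 4 - ε) * (2 * (1 + ε / 3) * M) ^ 2 :=
        mul_le_mul_of_nonneg_left h6 h0.le
      have h8 : (3 / 4 - ε) * (2 * (1 + ε / 3) * M) ^ 2 =
          ((3 / 4 - ε) * (1 + ε / 3) ^ 2 * 4) * (M : ℝ) ^ 2 := by ring
      have h9 : (3 / 4 - ε) * (1 + ε / 3) ^ 2 * 4 ≤ 3 := by nlinarith [mul_pos hε hε]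
      rw [h8] at h7
      exact h7.trans (mul_le_mul_of_nonneg_right h9 (by positivity))

theorem all_lower (ε : ℝ) (hε : 0 < ε) : ∃ L : ℕ, ∀ l ≥ L, (1 / 8 - ε) * (l : ℝ) ^ 2 ≤ I3 l 2 := by
  obtain ⟨R, hR⟩ := exists_nat_ge (10 / ε)
  set N := max R 50 with hN
  refine ⟨N * N, fun l hl => ?_⟩
  set r := Nat.sqrt l with hr
  have hNr : N ≤ r := by
    rw [hr, Nat.le_sqrt]
    exact hl
  have hN50 : 50 ≤ N := le_max_right _ _
  have hNR : R ≤ N := le_max_left _ _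
  have hrl : r * r ≤ l := Nat.sqrt_le l
  have hlr : l < (r + 1) * (r + 1) := Nat.lt_succ_sqrt l
  set t := 5 * (r + 1) with ht
  have h1 : l ≤ 2 * I3 t 2 := by
    have h2 := I3_lower (t := t) (by omega)
    have h3 : 25 * l ≤ t ^ 2 := by
      rw [ht]
      nlinarith
    omega
  have htl : t + 100 ≤ l := by
    have : 50 * r ≤ r * r := Nat.mul_le_mul_right r (hN50.trans hNr)
    omega
  obtain ⟨p, hp, hp1, hp2⟩ := Nat.exists_prime_lt_and_le_two_mul ((l - t) / 2) (by omega)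
  have h2 := plane_I3 (t := t) hp (by omega) (by omega)
  have h3 : I3 (p + t) 2 ≤ I3 l 2 := I3_mono (by omega)
  have h4 : p ^ 2 ≤ 2 * I3 l 2 + 1 := by omega
  have h5 : l ≤ 2 * p + t := by omega
  have h4' : (p : ℝ) ^ 2 ≤ 2 * (I3 l 2 : ℝ) + 1 := by exact_mod_cast h4
  have h5' : (l : ℝ) ≤ 2 * p + t := by exact_mod_cast h5
  have hrR : 10 / ε ≤ r := hR.trans (by exact_mod_cast hNR.trans hNr)
  have hr1 : (50 : ℝ) ≤ r := by exact_mod_cast hN50.trans hNr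
  have hrr : (r : ℝ) * r ≤ l := by exact_mod_cast hrl
  have h10 : 10 ≤ ε * r := by
    rw [div_le_iff₀ hε] at hrR
    linarith
  have htl' : (t : ℝ) ≤ ε * l := by
    have e1 : (t : ℝ) = 5 * (r + 1) := by
      rw [ht]
      push_cast
      ring
    rw [e1]
    nlinarith
  have hl1 : (t : ℝ) + 100 ≤ l := by exact_mod_cast htl
  have hl0 : (0 : ℝ) ≤ l := Nat.cast_nonneg l
  have h6 : ((l : ℝ) - t) ^ 2 ≤ 4 * (p : ℝ) ^ 2 := by
    have h7 : (l : ℝ) - t ≤ 2 * p := by linarith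
    have h8 : ((l : ℝ) - t) ^ 2 ≤ (2 * (p : ℝ)) ^ 2 := pow_le_pow_left₀ (by linarith) h7 2
    linarith
  have h7 : (l : ℝ) ^ 2 - 2 * ε * l ^ 2 ≤ (l - t) ^ 2 := by
    have h8 : (t : ℝ) * l ≤ ε * l * l := mul_le_mul_of_nonneg_right htl' hl0
    nlinarith [sq_nonneg (t : ℝ)]
  have h8 : (4 : ℝ) ≤ ε * (l : ℝ) ^ 2 := by
    have h9 : (4 : ℝ) ≤ ε * l := by
      nlinarith
    nlinarith
  nlinarith

end Pool.Agent.Work.MP_4b9821_co
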