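import Pool.Agent.Work.MP_4b9821_co.U.Final

/-!
L/Transfer (size M). PROOFS.

`adm_map`: `Finset.map e` is injective on finsets and commutes with intersections
(`Finset.map_inter`), so it preserves cards and sunflowers.
`bdd_I3`: by `inter_bound_any` the set is bounded by `l ^ 2 + 5 l + 7`. `bdd_M3`: by `exists_inter` (for
`l > 0`; the members of `F'` satisfy `Adm`) and `inter_bound_any`; for `l = 0` the only member is `∅`.
`exists_I3`, `exists_M3`: the supremum of a nonempty bounded set of naturals is attained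
(`Nat.sSup_mem`; the empty family shows that the set is nonempty).
`le_I3`, `le_M3`: transfer the family to `ℕ` along an injection `α → ℕ` (`Encodable` /
`exists_injective_nat`, `α` countable) and use `le_csSup`.
`I3_mono`: add to every member `A` of a family on `ℕ` one new element of its own (for example pass to
`ℕ ⊕ Finset ℕ` with the new element `Sum.inr A`): intersections of distinct members do not change.
`two_mul_I3_le`: two disjoint copies of a family (on `ℕ ⊕ ℕ`): a sunflower with two members in one copy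
and one in the other has empty core, but two members of one copy meet (for `l > 0`, members are
nonempty; for `l = 0`, `I3 0 2 ≤ 1`... so assume `0 < l`).
-/

set_option autoImplicit false

namespace Pool.Agent.Work.MP_4b9821_co

variable {α : Type*} [DecidableEq α]

private theorem adm_trans {β : Type*} [DecidableEq β] {l l' : ℕ} {F : Finset (Finset α)}
    (h : Adm l 2 F) (φ : Finset α → Finset β) (e : α ↪ β) (h1 : ∀ A ∈ F, (φ A).card = l')
    (h2 : ∀ A ∈ F, ∀ B ∈ F, A ≠ B → φ A ∩ φ B = (A ∩ B).map e) : Adm l' 2 (F.image φ) := by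
  refine ⟨fun A' hA' => ?_, fun A' hA' B' hB' hne => ?_, fun A' hA' B' hB' C' hC' hs => ?_⟩
  · obtain ⟨A, hA, rfl⟩ := Finset.mem_image.1 hA'
    exact h1 A hA
  · obtain ⟨A, hA, rfl⟩ := Finset.mem_image.1 hA'
    obtain ⟨B, hB, rfl⟩ := Finset.mem_image.1 hB'
    have hAB : A ≠ B := fun h3 => hne (congrArg φ h3)
    rw [h2 A hA B hB hAB, Finset.card_map]
    exact h.2.1 A hA B hB hAB
  · obtain ⟨A, hA, rfl⟩ := Finset.mem_image.1 hA'
    obtain ⟨B, hB, rfl⟩ := Finset.mem_image.1 hB'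
    obtain ⟨C, hC, rfl⟩ := Finset.mem_image.1 hC'
    obtain ⟨n1, n2, n3, e1, e2⟩ := hs
    have hAB : A ≠ B := fun h3 => n1 (congrArg φ h3)
    have hAC : A ≠ C := fun h3 => n2 (congrArg φ h3)
    have hBC : B ≠ C := fun h3 => n3 (congrArg φ h3)
    rw [h2 A hA B hB hAB, h2 A hA C hC hAC] at e1
    rw [h2 A hA C hC hAC, h2 B hB C hC hBC] at e2
    exact h.2.2 A hA B hB C hC
      ⟨hAB, hAC, hBC, Finset.map_injective e e1, Finset.map_injective e e2⟩

private theorem inter_trans {β : Type*} [DecidableEq β] {F : Finset (Finset α)}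
    (h : Inter F) (φ : Finset α → Finset β) (e : α ↪ β)
    (h2 : ∀ A ∈ F, ∀ B ∈ F, A ≠ B → φ A ∩ φ B = (A ∩ B).map e) : Inter (F.image φ) := by
  intro A' hA' B' hB' hne
  obtain ⟨A, hA, rfl⟩ := Finset.mem_image.1 hA'
  obtain ⟨B, hB, rfl⟩ := Finset.mem_image.1 hB'
  have hAB : A ≠ B := fun h3 => hne (congrArg φ h3)
  rw [h2 A hA B hB hAB]
  exact (h A hA B hB hAB).map

private theorem adm_sub {l : ℕ} {F F' : Finset (Finset α)} (h : Adm l 2 F) (hF' : F' ⊆ F) :
    Adm l 2 F' :=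
  ⟨fun A hA => h.1 A (hF' hA), fun A hA B hB => h.2.1 A (hF' hA) B (hF' hB),
    fun A hA B hB C hC => h.2.2 A (hF' hA) B (hF' hB) C (hF' hC)⟩

private theorem bdd_I3 (l : ℕ) :
    BddAbove {n | ∃ F : Finset (Finset ℕ), Adm l 2 F ∧ Inter F ∧ F.card = n} := by
  refine ⟨l ^ 2 + 5 * l + 7, ?_⟩
  rintro n ⟨F, h, hI, rfl⟩
  exact inter_bound_any h hI

private theorem bdd_M3 (l : ℕ) :
    BddAbove {n | ∃ F : Finset (Finset ℕ), Adm l 2 F ∧ F.card = n} := by
  refine ⟨l ^ 2 + 5 * l + 7 + (3 * l ^ 2 + 2), ?_⟩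
  rintro n ⟨F, h, rfl⟩
  rcases Nat.eq_zero_or_pos l with hl | hl
  · subst hl
    have h1 : F ⊆ {∅} := by
      intro A hA
      rw [Finset.mem_singleton]
      exact Finset.card_eq_zero.1 (h.1 A hA)
    have h2 := Finset.card_le_card h1
    rw [Finset.card_singleton] at h2
    omega
  · obtain ⟨F', hF', hI, hle⟩ := exists_inter h hl
    have h1 := inter_bound_any (adm_sub h hF') hI
    omega

private theorem trans_emb [Countable α] (l : ℕ) (F : Finset (Finset α)) (h : Adm l 2 F) :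
    ∃ G : Finset (Finset ℕ), Adm l 2 G ∧ (Inter F → Inter G) ∧ G.card = F.card := by
  obtain ⟨f, hf⟩ := exists_injective_nat α
  let e : α ↪ ℕ := ⟨f, hf⟩
  have h2 : ∀ A ∈ F, ∀ B ∈ F, A ≠ B → A.map e ∩ B.map e = (A ∩ B).map e :=
    fun A _ B _ _ => (Finset.map_inter A B).symm
  refine ⟨F.image (fun A => A.map e), ?_, ?_, ?_⟩
  · exact adm_trans h _ e (fun A hA => by rw [Finset.card_map]; exact h.1 A hA) h2
  · exact fun hI => inter_trans hI _ e h2
  · exact Finset.card_image_of_injective F (Finset.map_injective e)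

theorem le_I3 [Countable α] {l : ℕ} {F : Finset (Finset α)} (h : Adm l 2 F) (hI : Inter F) :
    F.card ≤ I3 l 2 := by
  obtain ⟨G, h1, h2, h3⟩ := trans_emb l F h
  rw [← h3]
  exact le_csSup (bdd_I3 l) ⟨G, h1, h2 hI, rfl⟩

theorem le_M3 [Countable α] {l : ℕ} {F : Finset (Finset α)} (h : Adm l 2 F) : F.card ≤ M3 l 2 := by
  obtain ⟨G, h1, _, h3⟩ := trans_emb l F h
  rw [← h3]
  exact le_csSup (bdd_M3 l) ⟨G, h1, rfl⟩

theorem exists_I3 (l : ℕ) : ∃ F : Finset (Finset ℕ), Adm l 2 F ∧ Inter F ∧ F.card = I3 l 2 := by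
  refine Nat.sSup_mem ?_ (bdd_I3 l)
  refine ⟨0, ∅, ⟨fun A hA => ?_, fun A hA => ?_, fun A hA => ?_⟩, fun A hA => ?_, rfl⟩ <;>
  exact absurd hA (Finset.notMem_empty A)

theorem exists_M3 (l : ℕ) : ∃ F : Finset (Finset ℕ), Adm l 2 F ∧ F.card = M3 l 2 := by
  refine Nat.sSup_mem ?_ (bdd_M3 l)
  refine ⟨0, ∅, ⟨fun A hA => ?_, fun A hA => ?_, fun A hA => ?_⟩, rfl⟩ <;>
  exact absurd hA (Finset.notMem_empty A)

theorem I3_mono {l l' : ℕ} (h : l ≤ l') : I3 l 2 ≤ I3 l' 2 := by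
  obtain ⟨F, h1, hI, hc⟩ := exists_I3 l
  rw [← hc]
  let φ : Finset ℕ → Finset (ℕ ⊕ (Finset ℕ × ℕ)) :=
    fun A => A.disjSum (({A} : Finset (Finset ℕ)) ×ˢ Finset.range (l' - l))
  have hinj : Function.Injective φ := by
    intro A B hAB
    ext x
    have h3 : Sum.inl x ∈ φ A ↔ Sum.inl x ∈ φ B := by rw [hAB]
    rw [Finset.inl_mem_disjSum, Finset.inl_mem_disjSum] at h3
    exact h3
  have h2 : ∀ A ∈ F, ∀ B ∈ F, A ≠ B →
      φ A ∩ φ B = (A ∩ B).map (Function.Embedding.inl : ℕ ↪ ℕ ⊕ (Finset ℕ × ℕ)) := by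
    intro A _ B _ hAB
    ext x
    rcases x with x | x
    · rw [Finset.mem_inter, Finset.inl_mem_disjSum, Finset.inl_mem_disjSum, Finset.mem_map]
      constructor
      · rintro ⟨h3, h4⟩
        exact ⟨x, Finset.mem_inter.2 ⟨h3, h4⟩, rfl⟩
      · rintro ⟨y, hy, hyx⟩
        have h3 : y = x := Sum.inl_injective hyx
        subst h3
        exact Finset.mem_inter.1 hy
    · rw [Finset.mem_inter, Finset.inr_mem_disjSum, Finset.inr_mem_disjSum, Finset.mem_map,
        Finset.mem_product, Finset.mem_product, Finset.mem_singleton, Finset.mem_singleton]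
      constructor
      · rintro ⟨⟨h3, _⟩, ⟨h4, _⟩⟩
        exact absurd (h3.symm.trans h4) hAB
      · rintro ⟨y, _, hyx⟩
        exact absurd hyx Sum.inl_ne_inr
  have h3 : Adm l' 2 (F.image φ) := by
    refine adm_trans h1 φ _ (fun A hA => ?_) h2
    rw [Finset.card_disjSum, Finset.card_product, Finset.card_singleton, Finset.card_range,
      h1.1 A hA]
    omega
  have h4 : Inter (F.image φ) := inter_trans hI φ _ h2
  rw [← Finset.card_image_of_injective F hinj]
  exact le_I3 h3 h4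

theorem two_mul_I3_le {l : ℕ} (hl : 0 < l) : 2 * I3 l 2 ≤ M3 l 2 := by
  obtain ⟨F, h1, hI, hc⟩ := exists_I3 l
  rw [← hc]
  let φ : Finset ℕ × Bool → Finset (ℕ × Bool) := fun p => p.1 ×ˢ {p.2}
  have hmem : ∀ (A : Finset ℕ) (b : Bool) (x : ℕ) (c : Bool), (x, c) ∈ φ (A, b) ↔ x ∈ A ∧ c = b := by
    intro A b x c
    rw [Finset.mem_product, Finset.mem_singleton]
  have hne : ∀ A ∈ F, A.Nonempty := fun A hA => by
    rw [← Finset.card_pos, h1.1 A hA]
    exact hl
  have hinj : Set.InjOn φ (F ×ˢ (Finset.univ : Finset Bool) : Finset (Finset ℕ × Bool)) := by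
    rintro ⟨A, b⟩ hA ⟨B, c⟩ hB hAB
    have hA' : A ∈ F := (Finset.mem_product.1 (Finset.mem_coe.1 hA)).1
    obtain ⟨x, hx⟩ := hne A hA'
    have h3 : (x, b) ∈ φ (B, c) := by
      rw [← hAB, hmem]
      exact ⟨hx, rfl⟩
    rw [hmem] at h3
    obtain ⟨_, rfl⟩ := h3
    have h4 : A = B := by
      ext y
      have h5 : (y, b) ∈ φ (A, b) ↔ (y, b) ∈ φ (B, b) := by rw [hAB]
      rw [hmem, hmem] at h5
      simpa using h5
    rw [h4]
  -- intersections
  have hcol : ∀ A ∈ F, ∀ B ∈ F, ∀ b c, φ (A, b) ≠ φ (B, c) → b = c → A ≠ B ∧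
      (φ (A, b) ∩ φ (B, c)).Nonempty := by
    intro A hA B hB b c hne' hbc
    subst hbc
    have hAB : A ≠ B := fun h3 => hne' (by rw [h3])
    obtain ⟨x, hx⟩ := hI A hA B hB hAB
    rw [Finset.mem_inter] at hx
    refine ⟨hAB, (x, b), ?_⟩
    rw [Finset.mem_inter, hmem, hmem]
    exact ⟨⟨hx.1, rfl⟩, ⟨hx.2, rfl⟩⟩
  have hcol2 : ∀ A B b c, (φ (A, b) ∩ φ (B, c)).Nonempty → b = c := by
    rintro A B b c ⟨⟨x, d⟩, hx⟩
    rw [Finset.mem_inter, hmem, hmem] at hx
    exact hx.1.2.symm.trans hx.2.2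
  have hint : ∀ A B b, φ (A, b) ∩ φ (B, b) = φ (A ∩ B, b) := by
    intro A B b
    ext ⟨x, d⟩
    rw [Finset.mem_inter, hmem, hmem, hmem, Finset.mem_inter]
    tauto
  have hφe : ∀ A B b, φ (A, b) = φ (B, b) → A = B := by
    intro A B b hAB
    ext y
    have h5 : (y, b) ∈ φ (A, b) ↔ (y, b) ∈ φ (B, b) := by rw [hAB]
    rw [hmem, hmem] at h5
    simpa using h5
  have hcard : ∀ A b, (φ (A, b)).card = A.card := by
    intro A b
    rw [Finset.card_product, Finset.card_singleton, mul_one]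
  have h3 : Adm l 2 ((F ×ˢ (Finset.univ : Finset Bool)).image φ) := by
    refine ⟨fun A' hA' => ?_, fun A' hA' B' hB' hne' => ?_, fun A' hA' B' hB' C' hC' hs => ?_⟩
    · obtain ⟨⟨A, b⟩, hA, rfl⟩ := Finset.mem_image.1 hA'
      rw [hcard]
      exact h1.1 A (Finset.mem_product.1 hA).1
    · obtain ⟨⟨A, b⟩, hA, rfl⟩ := Finset.mem_image.1 hA'
      obtain ⟨⟨B, c⟩, hB, rfl⟩ := Finset.mem_image.1 hB'
      have hA2 := (Finset.mem_product.1 hA).1
      have hB2 := (Finset.mem_product.1 hB).1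
      rcases Finset.eq_empty_or_nonempty (φ (A, b) ∩ φ (B, c)) with h4 | h4
      · rw [h4, Finset.card_empty]
        omega
      · have hbc := hcol2 A B b c h4
        subst hbc
        rw [hint, hcard]
        exact h1.2.1 A hA2 B hB2 fun h5 => hne' (by rw [h5])
    · obtain ⟨⟨A, b⟩, hA, rfl⟩ := Finset.mem_image.1 hA'
      obtain ⟨⟨B, c⟩, hB, rfl⟩ := Finset.mem_image.1 hB'
      obtain ⟨⟨C, d⟩, hC, rfl⟩ := Finset.mem_image.1 hC'
      have hA2 := (Finset.mem_product.1 hA).1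
      have hB2 := (Finset.mem_product.1 hB).1
      have hC2 := (Finset.mem_product.1 hC).1
      obtain ⟨n1, n2, n3, e1, e2⟩ := hs
      have h4 : b = c ∨ b = d ∨ c = d := by
        cases b <;> cases c <;> cases d <;> simp
      have h5 : (φ (A, b) ∩ φ (B, c)).Nonempty := by
        rcases h4 with h4 | h4 | h4
        · exact (hcol A hA2 B hB2 b c n1 h4).2
        · rw [e1]
          exact (hcol A hA2 C hC2 b d n2 h4).2
        · rw [e1, e2]
          exact (hcol B hB2 C hC2 c d n3 h4).2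
      have h6 : b = c := hcol2 A B b c h5
      have h7 : b = d := hcol2 A C b d (by rw [← e1]; exact h5)
      subst h6
      subst h7
      rw [hint, hint] at e1
      rw [hint, hint] at e2
      exact h1.2.2 A hA2 B hB2 C hC2 ⟨fun h8 => n1 (by rw [h8]), fun h8 => n2 (by rw [h8]),
        fun h8 => n3 (by rw [h8]), hφe _ _ _ e1, hφe _ _ _ e2⟩
  have h4 : ((F ×ˢ (Finset.univ : Finset Bool)).image φ).card = 2 * F.card := by
    rw [Finset.card_image_of_injOn hinj, Finset.card_product, Finset.card_univ, Fintype.card_bool,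
      mul_comm]
  rw [← h4]
  exact le_M3 h3

theorem ten_mul_I3_le {l : ℕ} (hl : 3 ≤ l) : 10 * I3 l 2 ≤ 9 * l ^ 2 + 17 * l + 26 := by
  obtain ⟨F, h, hI, hc⟩ := exists_I3 l
  rw [← hc]
  exact inter_bound h hI hl

theorem two_mul_M3_le {l : ℕ} (hl : 0 < l) : 2 * M3 l 2 + l ≤ 2 * I3 l 2 + 3 * l ^ 2 + 2 := by
  obtain ⟨F, h, hc⟩ := exists_M3 l
  obtain ⟨F', hF', hI, hle⟩ := exists_inter h hl
  have h' : Adm l 2 F' := ⟨fun A hA => h.1 A (hF' hA), fun A hA B hB => h.2.1 A (hF' hA) B (hF' hB),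
    fun A hA B hB C hC => h.2.2 A (hF' hA) B (hF' hB) C (hF' hC)⟩
  have := le_I3 h' hI
  omega

end Pool.Agent.Work.MP_4b9821_co
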